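import Pool.Agent.W823.CT.Defs

/-! Statements for MP_6504f0_pr (cover times of random walk on dynamical percolation). -/

open MeasureTheory ProbabilityTheory
open scoped ENNReal BigOperators

namespace Pool.Agent.W823.CT

/-! #### A. chains with blocks -/

/-- Green function bound -/
def S_FKSUM : Prop := ∀ (V Ω : Type) [Fintype V] [Fintype Ω] [DecidableEq V] (C : BC V Ω) (o : V)
    (v : V → ℝ) (κ : ℝ), 0 < κ → (∀ z, v z < 1) →
    (∀ g : V × Ω → ℝ, ∑ z, v z * C.sq g z + κ * C.sq g o ≤ C.Dir g) →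
    ∀ K : ℕ, ∑ k ∈ Finset.range K,
      C.blk ((fun (f : V × Ω → ℝ) (s : V × Ω) => (1 - v s.1)⁻¹ * C.P f s)^[k]
        (fun s => if s.1 = o then 1 else 0)) o ≤ (1 - v o) / κ

/-- Feynman-Kac formula -/
def S_FKPATH : Prop := ∀ (V Ω : Type) [Fintype V] [Fintype Ω] [DecidableEq V] (C : BC V Ω) (o : V)
    (w : V → ℝ) (k : ℕ) (s : V × Ω) (l : V → ℕ),
    (C.lstep^[k] (fun s l => (if s.1 = o then 1 else 0) * ∏ z, w z ^ l z)) s l =
      (∏ z, w z ^ l z) *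
        ((fun (f : V × Ω → ℝ) (s : V × Ω) => w s.1 * C.P f s)^[k] (fun s => if s.1 = o then 1 else 0)) s

/-- one bad link -/
def S_BAD : Prop := ∀ (V Ω : Type) [Fintype V] [Fintype Ω] [DecidableEq V] (C : BC V Ω) (o x y : V)
    (ρ t α β : ℝ), x ≠ y → y ≠ o → 1 ≤ ρ → (∀ g : V × Ω → ℝ, (C.nr g x - C.nr g y) ^ 2 ≤ ρ * C.Dir g) →
    0 < t → 0 < β → β < α →
    ∀ K : ℕ, ∑ k ∈ Finset.range K,
      C.blk (fun s => (C.lstep^[k] (fun s l =>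
        if s.1 = o ∧ (l o : ℝ) ≤ 2 * t ∧ α ^ 2 ≤ (l x : ℝ) ∧ (l y : ℝ) ≤ β ^ 2 then 1 else 0)) s 0) o
      ≤ Real.exp 2 * (1 + t) * Real.exp (-((α - β) ^ 2 / ρ))

/-- few visits are unlikely -/
def S_RET : Prop := ∀ (V Ω : Type) [Fintype V] [Fintype Ω] [DecidableEq V] (C : BC V Ω) (o : V) (i T : ℕ),
    (T : ℝ) * C.blk (fun s => (C.lstep^[T] (fun _ l => if l o ≤ i then 1 else 0)) s 0) o
      ≤ (i : ℝ) * Fintype.card V

/-- union over the links of a labelled tree -/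
def S_UNION : Prop := ∀ (V : Type) [Fintype V] [DecidableEq V] (d : V → V → ℝ) (S t : ℝ) (o : V),
    (∀ x y, 0 ≤ d x y) → (∀ x y, x ≠ y → 0 < d x y) → HasTree d S → 0 < t → 6 * S ≤ √t →
    ∃ (n : ℕ) (x y : Fin n → V) (α β : Fin n → ℝ), (∀ i, x i ≠ y i) ∧ (∀ i, y i ≠ o) ∧
      (∀ i, 0 < β i ∧ β i < α i) ∧
      ∑ i, Real.exp (-((α i - β i) ^ 2 / d (x i) (y i) ^ 2)) ≤ 1 / 1000 ∧
      ∀ l : V → ℕ, t ≤ (l o : ℝ) → (∃ z, l z = 0) → ∃ i, α i ^ 2 ≤ (l (x i) : ℝ) ∧ (l (y i) : ℝ) ≤ β i ^ 2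

/-- covering from a stationary environment -/
def S_COVSTAT : Prop := ∀ (V Ω : Type) [Fintype V] [Fintype Ω] [DecidableEq V] (C : BC V Ω)
    (ρ : V → V → ℝ) (S t : ℝ) (T : ℕ), (∀ x y, x ≠ y → 1 ≤ ρ x y) → (∀ x y, 0 ≤ ρ x y) →
    (∀ x y, ∀ g : V × Ω → ℝ, (C.nr g x - C.nr g y) ^ 2 ≤ ρ x y * C.Dir g) →
    HasTree (fun x y => √(ρ x y)) S → 2 ≤ t → 6 * S ≤ √t → 16 * (2 * t + 1) * Fintype.card V ≤ (T : ℝ) →
    ∀ o : V, C.blk (fun s => (C.cstep^[T] (fun _ A => nc A)) s {s.1}) o ≤ 1 / 10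

/-- hitting sets that are large in every block -/
def S_HITN : Prop := ∀ (V Ω : Type) [Fintype V] [Fintype Ω] (C : BC V Ω) (γ : ℝ)
    (B : V × Ω → Prop) [DecidablePred B], 0 ≤ γ → γ ≤ 1 → (∀ g, 0 ≤ C.ip g (C.P g)) →
    (∀ g, γ * ∑ x, (C.sq g x - C.blk g x ^ 2) ≤ C.Dir g) →
    (∀ x, C.blk (fun s => if B s then 1 else 0) x ≤ 1 / 4) →
    ∀ j : ℕ, ∑ x, C.blk ((fun (f : V × Ω → ℝ) (s : V × Ω) => if B s then C.P f s else 0)^[j]
      (fun s => if B s then 1 else 0)) x ≤ (1 - 3 / 4 * γ) ^ j * Fintype.card V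

/-- covering from the worst initial state -/
def S_WORST : Prop := ∀ (V Ω : Type) [Fintype V] [Fintype Ω] [DecidableEq V] (C : BC V Ω) (γ m : ℝ)
    (T s₁ j : ℕ), 0 ≤ γ → γ ≤ 1 → 0 ≤ m → (∀ g, 0 ≤ C.ip g (C.P g)) →
    (∀ g, γ * ∑ x, (C.sq g x - C.blk g x ^ 2) ≤ C.Dir g) →
    (∀ f : Ω → ℝ, (∀ ω, 0 ≤ f ω ∧ f ω ≤ 1) → ∀ (k : ℕ) (s : V × Ω),
      (C.P^[k] (fun s => f s.2)) s ≤ ∑ ω, C.ν ω * f ω + m * (1 - γ) ^ k) →
    (∀ o : V, C.blk (fun s => (C.cstep^[T] (fun _ A => nc A)) s {s.1}) o ≤ 1 / 10) →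
    m * (1 - γ) ^ s₁ ≤ 1 / 8 → (1 - 3 / 4 * γ) ^ j * Fintype.card V ≤ 1 / 8 →
    ∀ (s : V × Ω) (A : Finset V), s.1 ∈ A → 1 ≤ s₁ + j + T →
      ∑' k : ℕ, ENNReal.ofReal ((C.cstep^[k] (fun _ A => nc A)) s A) ≤ ENNReal.ofReal (4 * (s₁ + j + T))

/-! #### B. dynamical percolation -/

/-- product Bernoulli weights -/
noncomputable def bnu {E : Type} [Fintype E] (p : ℝ) (ω : E → Bool) : ℝ :=
  ∏ e, if ω e = true then p else 1 - p

/-- Efron-Stein inequality -/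
def S_ES : Prop := ∀ (E : Type) [Fintype E] [DecidableEq E] (p : ℝ) (g : (E → Bool) → ℝ), 0 < p → p < 1 →
    ∑ ω, bnu p ω * g ω ^ 2 - (∑ ω, bnu p ω * g ω) ^ 2 ≤
      ∑ e, ∑ ω, bnu p ω * (p * (1 - p) * (g (Function.update ω e true) - g (Function.update ω e false)) ^ 2)

/-- comparison across one edge -/
def S_TWO : Prop := ∀ (E : Type) [Fintype E] [DecidableEq E] (p μ : ℝ) (g h : (E → Bool) → ℝ) (e : E),
    0 < p → p < 1 → 0 < μ → μ ≤ 1 →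
    μ * p / 3 * (√(∑ ω, bnu p ω * g ω ^ 2) - √(∑ ω, bnu p ω * h ω ^ 2)) ^ 2 ≤
      ∑ ω, bnu p ω * (if ω e = true then (g ω - h ω) ^ 2 else 0) +
      μ * ∑ ω, bnu p ω * (p * (1 - p) * (g (Function.update ω e true) - g (Function.update ω e false)) ^ 2) +
      μ * ∑ ω, bnu p ω * (p * (1 - p) * (h (Function.update ω e true) - h (Function.update ω e false)) ^ 2)

/-- mixing of the environment -/
def S_MIX : Prop := ∀ (E : Type) [Fintype E] [DecidableEq E] (p δ : ℝ) (f : (E → Bool) → ℝ),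
    0 < p → p < 1 → 0 ≤ δ → δ * Fintype.card E ≤ 1 → (∀ ω, 0 ≤ f ω ∧ f ω ≤ 1) → ∀ (k : ℕ) (ω : E → Bool),
    ((fun (f : (E → Bool) → ℝ) (ω : E → Bool) => f ω + δ * ∑ e,
        (p * f (Function.update ω e true) + (1 - p) * f (Function.update ω e false) - f ω))^[k] f) ω ≤
      ∑ ω, bnu p ω * f ω + Fintype.card E * (1 - δ) ^ k

/-- the uniformised chain of the walk on dynamical percolation -/
def S_DYN : Prop := ∀ (V : Type) [Fintype V] [DecidableEq V] (G : SimpleGraph V) [DecidableRel G.Adj]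
    (μ p Λ : ℝ), 0 < μ → μ ≤ 1 → 0 < p → p < 1 → 0 < Λ →
    2 * (μ * Fintype.card G.edgeSet + Fintype.card V) ≤ Λ →
    ∃ C : BC V (G.edgeSet → Bool), (∀ ω, C.ν ω = bnu p ω) ∧
      (∀ (f : V × (G.edgeSet → Bool) × Finset V → ℝ) (x : V) (η : G.edgeSet → Bool) (A : Finset V), x ∈ A →
        C.cstep (fun s A => f (s.1, s.2, A)) (x, η) A = f (x, η, A) + Λ⁻¹ * genFun G μ p f (x, η, A)) ∧
      (∀ g, 0 ≤ C.ip g (C.P g)) ∧
      (∀ g, μ / Λ * ∑ x, (C.sq g x - C.blk g x ^ 2) ≤ C.Dir g) ∧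
      (∀ f : (G.edgeSet → Bool) → ℝ, (∀ ω, 0 ≤ f ω ∧ f ω ≤ 1) → ∀ (k : ℕ) (s : V × (G.edgeSet → Bool)),
        (C.P^[k] (fun s => f s.2)) s ≤ ∑ ω, C.ν ω * f ω + Fintype.card G.edgeSet * (1 - μ / Λ) ^ k) ∧
      ∀ g, μ * p / (3 * Λ) * En G (C.nr g) (C.nr g) ≤ C.Dir g

/-- time integral of the semigroup as a sum over the uniformised chain -/
def S_UNIF : Prop := ∀ (ι : Type) [Fintype ι] (L : (ι → ℝ) →L[ℝ] (ι → ℝ)) (Λ : ℝ), 0 < Λ →
    (∀ f : ι → ℝ, (∀ i, 0 ≤ f i) → ∀ i, 0 ≤ f i + Λ⁻¹ * L f i) →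
    ∀ g : ι → ℝ, (∀ i, 0 ≤ g i) → ∀ i,
      ∫⁻ t in Set.Ioi (0 : ℝ), ENNReal.ofReal ((NormedSpace.exp (t • L)) g i) =
        ∑' k : ℕ, ENNReal.ofReal (Λ⁻¹ * ((fun (f : ι → ℝ) (i : ι) => f i + Λ⁻¹ * L f i)^[k] g) i)

/-- `p = 1` follows from `p < 1` -/
def S_PONE : Prop := ∀ (V : Type) [Fintype V] [DecidableEq V] (G : SimpleGraph V) [DecidableRel G.Adj]
    (μ X : ℝ), 0 < μ → μ ≤ 1 → 0 ≤ X → (∀ p : ℝ, 0 < p → p < 1 → Tdyn G μ p ≤ ENNReal.ofReal (X / p)) →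
    Tdyn G μ 1 ≤ ENNReal.ofReal X

/-- upper bound for the cover time -/
def S_UPPER : Prop := ∃ C : ℝ, 0 < C ∧ ∀ (V : Type) [Fintype V] [DecidableEq V] (G : SimpleGraph V)
    [DecidableRel G.Adj] (o : V) (a : V → V → ℝ) (μ p : ℝ), G.Connected → IsGreen G o a →
    2 ≤ Fintype.card V → 0 < μ → μ ≤ 1 → 0 < p → p < 1 →
    Tdyn G μ p ≤ ENNReal.ofReal (C / (μ * p) * (Fintype.card V * EM Finset.univ a ^ 2 + Fintype.card V))

/-! #### C. Gaussian vectors -/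

/-- Sudakov minoration -/
def S_SUD : Prop := ∃ c : ℝ, 0 < c ∧ ∀ (ι τ : Type) [Fintype ι] (T : Finset τ) (a : τ → ι → ℝ) (δ : ℝ),
    0 < δ → 2 ≤ T.card → (∀ s ∈ T, ∀ t ∈ T, s ≠ t → δ ≤ nrm (a s - a t)) →
    c * δ * √(Real.log T.card) ≤ EM T a

/-- Gaussian concentration of the maximum -/
def S_CONC : Prop := ∃ C : ℝ, 0 < C ∧ ∀ (ι τ : Type) [Fintype ι] (T : Finset τ) (a : τ → ι → ℝ) (σ : ℝ),
    0 ≤ σ → (∀ t ∈ T, nrm (a t) ≤ σ) → ∀ l : ℝ,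
    ∫⁻ g, ENNReal.ofReal (Real.exp (l * (mx T a g - EM T a))) ∂(gam ι) ≤
      ENNReal.ofReal (Real.exp (C * l ^ 2 * σ ^ 2))

/-- elementary facts on the expected maximum -/
def S_EMB : Prop := ∀ (ι τ : Type) [Fintype ι] [DecidableEq τ] (T : Finset τ) (a : τ → ι → ℝ),
    Integrable (mx T a) (gam ι) ∧ 0 ≤ EM T a ∧ (∀ t, EM {t} a = 0) ∧
    (∀ T' : Finset τ, T.Nonempty → T ⊆ T' → EM T a ≤ EM T' a) ∧
    (∀ b : ι → ℝ, EM T (fun t => a t - b) = EM T a) ∧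
    (∀ s ∈ T, ∀ t ∈ T, nrm (a s - a t) ≤ 6 * EM T a)

/-- growth condition -/
def S_GROW : Prop := ∃ r c : ℝ, 2 ≤ r ∧ 0 < c ∧ ∀ (ι τ : Type) [Fintype ι] [DecidableEq τ] (N : ℕ)
    (x : Fin N → τ) (D : Fin N → Finset τ) (a : τ → ι → ℝ) (δ b : ℝ), 2 ≤ N → 0 < δ →
    (∀ i j, i ≠ j → δ ≤ nrm (a (x i) - a (x j))) → (∀ i, (D i).Nonempty) →
    (∀ i, ∀ s ∈ D i, nrm (a s - a (x i)) ≤ δ / r) → (∀ i, b ≤ EM (D i) a) →
    c * δ * √(Real.log N) + b ≤ EM (Finset.univ.biUnion D) a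

/-- greedy construction of the labelled tree -/
def S_GREEDY : Prop := ∀ r c : ℝ, 2 ≤ r → 0 < c → ∃ C : ℝ, 0 < C ∧
    ∀ (V : Type) [Fintype V] [DecidableEq V] [Nonempty V] (d : V → V → ℝ) (F : Finset V → ℝ) (Δ : ℝ),
    0 < Δ → (∀ x, d x x = 0) → (∀ x y, x ≠ y → 0 < d x y) → (∀ x y, d x y = d y x) →
    (∀ x y z, d x z ≤ d x y + d y z) → (∀ x y, d x y ≤ Δ) → (∀ A, 0 ≤ F A) →
    (∀ A B : Finset V, A.Nonempty → A ⊆ B → F A ≤ F B) →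
    (∀ (N : ℕ) (x : Fin N → V) (D : Fin N → Finset V) (δ b : ℝ), 2 ≤ N → 0 < δ →
      (∀ i j, i ≠ j → δ ≤ d (x i) (x j)) → (∀ i, (D i).Nonempty) →
      (∀ i, ∀ s ∈ D i, d s (x i) ≤ δ / r) → (∀ i, b ≤ F (D i)) →
      c * δ * √(Real.log N) + b ≤ F (Finset.univ.biUnion D)) →
    HasTree d (C * (F Finset.univ + Δ))

/-- majorizing measure theorem -/
def S_MM : Prop := ∃ C : ℝ, 0 < C ∧ ∀ (ι V : Type) [Fintype ι] [Fintype V] [DecidableEq V] [Nonempty V]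
    (a : V → ι → ℝ), Function.Injective a →
    HasTree (fun x y => nrm (a x - a y)) (C * EM Finset.univ a)

/-- lower tail of the maximum -/
def S_LOWC : Prop := ∃ K : ℝ, 0 < K ∧ ∀ (ι τ : Type) [Fintype ι] (T : Finset τ) (a : τ → ι → ℝ) (σ : ℝ),
    0 ≤ σ → (∀ t ∈ T, nrm (a t) ≤ σ) → K * σ ≤ EM T a →
    gam ι {g | mx T a g < EM T a / 2} ≤ ENNReal.ofReal (1 / 4)

/-! #### D. Green function and simple random walk -/

def S_GREEN : Prop := ∀ (V : Type) [Fintype V] [DecidableEq V] (G : SimpleGraph V) [DecidableRel G.Adj]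
    (o : V), G.Connected → ∃ a : V → V → ℝ, IsGreen G o a

/-- consequences of `IsGreen` -/
def S_GRI : Prop := ∀ (V : Type) [Fintype V] [DecidableEq V] (G : SimpleGraph V) [DecidableRel G.Adj]
    (o : V) (a : V → V → ℝ), IsGreen G o a →
    (∀ (f : V → ℝ) (x y : V), (f x - f y) ^ 2 ≤ nrm (a x - a y) ^ 2 * En G f f) ∧
    Function.Injective a ∧
    (∀ x y, (G.degree x : ℝ) * dotp (a x) (a y) - ∑ z ∈ G.neighborFinset x, dotp (a z) (a y) =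
      (if x = y then 1 else 0) - (if x = o then 1 else 0))

/-- hitting times are at most the cover time -/
def S_HITB : Prop := ∀ (V : Type) [Fintype V] [DecidableEq V] (G : SimpleGraph V) [DecidableRel G.Adj]
    (h : V → ℝ) (y : V), G.Connected → h y = 0 →
    (∀ x, x ≠ y → (G.degree x : ℝ) * h x = G.degree x + ∑ z ∈ G.neighborFinset x, h z) →
    ∀ x, ENNReal.ofReal (h x) ≤ Tsrw G

/-- commute times -/
def S_DIAG : Prop := ∀ (V : Type) [Fintype V] [DecidableEq V] (G : SimpleGraph V) [DecidableRel G.Adj]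
    (o : V) (a : V → V → ℝ), G.Connected → IsGreen G o a →
    ∀ x, ENNReal.ofReal (G.edgeFinset.card * nrm (a x) ^ 2) ≤ Tsrw G

/-- the cover time is at least `n - 1` -/
def S_CARD : Prop := ∀ (V : Type) [Fintype V] [DecidableEq V] (G : SimpleGraph V) [DecidableRel G.Adj],
    G.Connected → ((Fintype.card V - 1 : ℕ) : ℝ≥0∞) ≤ Tsrw G

/-- visits to `o` before covering -/
def S_CYC : Prop := ∀ (V : Type) [Fintype V] [DecidableEq V] (G : SimpleGraph V) [DecidableRel G.Adj]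
    (o : V) (a : V → V → ℝ), G.Connected → 2 ≤ Fintype.card V → IsGreen G o a →
    ∑' k : ℕ, ENNReal.ofReal ((srwStep G)^[k] (fun x A => if x = o then nc A else 0) o {o}) ≤
      ENNReal.ofReal ((G.degree o : ℝ) / G.edgeFinset.card) * Tsrw G

/-! #### E. the isomorphism inequality -/

def S_TPOS : Prop := ∀ (V : Type) [Fintype V] [DecidableEq V] (F : Finset (Sym2 V)) (φ : V → ℝ), 0 ≤ tF F φ

def S_TABS : Prop := ∀ (V : Type) [Fintype V] [DecidableEq V] (F : Finset (Sym2 V)) (φ : V → ℝ),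
    tF F (fun x => |φ x|) = tF F φ

open Classical in
def S_CS : Prop := ∀ (V : Type) [Fintype V] [DecidableEq V] (E : Finset (Sym2 V)) (φ : V → ℝ),
    (∀ x, 0 ≤ φ x) →
    ∑ F ∈ E.powerset.filter (fun F => Conn F), tF F φ ≤ 2 * Real.exp (∑ e ∈ E, pr φ e)

def S_GCV : Prop := ∀ (V : Type) [Fintype V] [DecidableEq V] (M B : Matrix V V ℝ), M.PosDef →
    B * B.transpose = M⁻¹ → ∀ f : (V → ℝ) → ℝ≥0∞, Measurable f →
    ∫⁻ φ : V → ℝ, f φ * ENNReal.ofReal (Real.exp (-(φ ⬝ᵥ M.mulVec φ) / 2)) =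
      ENNReal.ofReal (√(2 * Real.pi) ^ Fintype.card V / √M.det) * ∫⁻ g, f (B.mulVec g) ∂(gam V)

def S_ORTH : Prop := ∀ (V : Type) [Fintype V] [DecidableEq V] (f : (V → ℝ) → ℝ≥0∞), Measurable f →
    ∫⁻ φ : V → ℝ, f (fun x => |φ x|) =
      2 ^ Fintype.card V * ∫⁻ φ in {φ : V → ℝ | ∀ x, 0 < φ x}, f φ

open Classical in
def S_MOB : Prop := ∀ (α : Type) [DecidableEq α] (E : Finset α) (𝒞 : Finset α → Prop)
    (p l w : Finset α → ℝ), (∀ F F', F ⊆ F' → 𝒞 F → 𝒞 F') →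
    (∀ F ⊆ E, 0 ≤ p F) → (∀ F ⊆ E, 0 ≤ l F) →
    (∀ F ⊆ E, (∑ F' ∈ F.powerset, p F') * (∑ F' ∈ F.powerset, l F') = ∑ F' ∈ F.powerset, w F') →
    (∑ F ∈ E.powerset.filter 𝒞, p F) * (∑ F ∈ E.powerset, l F) ≤ ∑ F ∈ E.powerset.filter 𝒞, w F

/-- path sums of the killed walk -/
def S_NEU : Prop := ∀ (V : Type) [Fintype V] [DecidableEq V] (G : SimpleGraph V) [DecidableRel G.Adj]
    (κ : ℝ) (o : V), G.Connected → 0 < κ →
    (∀ F ⊆ G.edgeFinset, (MF G κ o F).PosDef) ∧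
    (∀ F, 0 ≤ pF G κ o F) ∧
    (∀ F ⊆ G.edgeFinset, ∑ F' ∈ F.powerset, pF G κ o F' = κ * (MF G κ o F)⁻¹ o o) ∧
    (∀ Φ : List V → Prop, [DecidablePred Φ] →
      Summable fun k : ℕ => κ / dt G κ o o *
        ((wstep G κ o)^[k] (fun x h => if x = o ∧ Φ h then 1 else 0) o [o])) ∧
    (∑' k : ℕ, κ / dt G κ o o * ((wstep G κ o)^[k] (fun x _ => if x = o then 1 else 0) o [o]) = 1)

open Classical in
/-- covering requires connecting -/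
def S_COVCONN : Prop := ∀ (V : Type) [Fintype V] [DecidableEq V] (G : SimpleGraph V) [DecidableRel G.Adj]
    (κ : ℝ) (o : V), G.Connected → 0 < κ →
    cov G κ o ≤ ∑ F ∈ G.edgeFinset.powerset.filter (fun F => Conn F), pF G κ o F

/-- upper bound for the probability that the killed walk covers -/
def S_COVLE : Prop := ∀ (V : Type) [Fintype V] [DecidableEq V] (G : SimpleGraph V) [DecidableRel G.Adj]
    (κ : ℝ) (o : V) (a : V → V → ℝ), G.Connected → 0 < κ → IsGreen G o a →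
    ENNReal.ofReal (cov G κ o) ≤
      2 * ∫⁻ g in {g : V → ℝ | ∀ x, 0 < g o / √κ + dotp (a x) g}, ENNReal.ofReal (g o ^ 2) ∂(gam V)

/-- lower bound for the probability that the killed walk covers -/
def S_COVGE : Prop := ∀ (V : Type) [Fintype V] [DecidableEq V] (G : SimpleGraph V) [DecidableRel G.Adj]
    (κ : ℝ) (o : V) (a : V → V → ℝ), G.Connected → 2 ≤ Fintype.card V → 0 < κ → IsGreen G o a →
    1 ≤ ENNReal.ofReal (cov G κ o) + ENNReal.ofReal (κ / G.edgeFinset.card) * Tsrw G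

/-- removal of the mass -/
def S_MASS : Prop := ∀ (V : Type) [Fintype V] [DecidableEq V] (o : V) (a : V → V → ℝ) (κ : ℝ), 0 < κ →
    (∀ u, a o u = 0) → (∀ x, a x o = 0) →
    2 * ∫⁻ g in {g : V → ℝ | ∀ x, 0 < g o / √κ + dotp (a x) g}, ENNReal.ofReal (g o ^ 2) ∂(gam V) ≤
      ENNReal.ofReal (1 / 4) + gam V {g | mx Finset.univ a g < 20 / √κ}

/-- lower bound for the cover time -/
def S_LOWER : Prop := ∃ c : ℝ, 0 < c ∧ ∀ (V : Type) [Fintype V] [DecidableEq V] (G : SimpleGraph V)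
    [DecidableRel G.Adj] (o : V) (a : V → V → ℝ), G.Connected → 2 ≤ Fintype.card V → IsGreen G o a →
    ENNReal.ofReal (c * G.edgeFinset.card * EM Finset.univ a ^ 2) ≤ Tsrw G

/-- the result -/
def S_FINAL : Prop := ∃ C : ℝ, 0 < C ∧ ∀ (V : Type) [Fintype V] [DecidableEq V] (G : SimpleGraph V)
    [DecidableRel G.Adj] (μ p : ℝ), G.Connected → 0 < μ → μ ≤ 1 → 0 < p → p ≤ 1 →
    Tdyn G μ p ≤ ENNReal.ofReal (C / μ * p⁻¹) * Tsrw G

end Pool.Agent.W823.CT
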