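import Pool.Agent.W823.CT.Stm

/-! Upper bound for the covering probability of the killed walk. -/

open MeasureTheory ProbabilityTheory
open scoped ENNReal BigOperators

namespace Pool.Agent.W823.CT.Covle

variable {V : Type} [Fintype V] [DecidableEq V]

theorem pr_mk (φ : V → ℝ) (x y : V) : pr φ s(x, y) = φ x * φ y := rfl

theorem pr_mul (φ ψ : V → ℝ) (e : Sym2 V) : pr (fun x => φ x * ψ x) e = pr φ e * pr ψ e := by
  induction e with
  | _ x y => simp only [pr_mk]; ring

/-- the ordered double sum is twice the sum over edges -/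
theorem sum_edges (F : Finset (Sym2 V)) (hF : ∀ e ∈ F, ¬ e.IsDiag) (φ : V → ℝ) :
    ∑ x, ∑ y, (if s(x, y) ∈ F then φ x * φ y else 0) = 2 * ∑ e ∈ F, pr φ e := by
  induction F using Finset.induction_on with
  | empty => simp
  | insert e F he ih =>
    have ih' := ih fun e' he' => hF e' (Finset.mem_insert_of_mem he')
    have hd := hF e (Finset.mem_insert_self _ _)
    rw [Finset.sum_insert he, mul_add, ← ih']
    revert he hd
    induction e with
    | _ u v =>
      intro he hd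
      have huv : u ≠ v := fun h => hd (by simp [h])
      have h1 : ∀ x y, (if s(x, y) ∈ insert s(u, v) F then φ x * φ y else 0) =
          (if s(x, y) = s(u, v) then φ x * φ y else 0) + (if s(x, y) ∈ F then φ x * φ y else 0) := by
        intro x y
        by_cases h : s(x, y) = s(u, v)
        · have : s(x, y) ∉ F := by rw [h]; exact he
          simp [h, he]
        · simp [h]
      simp only [h1, Finset.sum_add_distrib]
      congr 1
      have h2 : ∀ x y, (if s(x, y) = s(u, v) then φ x * φ y else 0) =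
          (if x = u then (if y = v then φ x * φ y else 0) else 0) +
          (if x = v then (if y = u then φ x * φ y else 0) else 0) := by
        intro x y
        by_cases h3 : x = u
        · subst h3
          by_cases h4 : y = v
          · subst h4
            have : ¬ (x = y) := huv
            simp [this]
          · have : ¬ (x = v) := huv
            simp [h4, this]
        · by_cases h5 : x = v
          · subst h5
            by_cases h6 : y = u
            · subst h6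
              simp [h3]
            · simp [h3, h6]
          · simp [h3, h5]
      simp only [h2, Finset.sum_add_distrib, pr_mk]
      have h7 : ∀ w w' : V, ∑ x, ∑ y, (if x = w then (if y = w' then φ x * φ y else 0) else 0) = φ w * φ w' := by
        intro w w'
        have : ∀ x, ∑ y, (if x = w then (if y = w' then φ x * φ y else 0) else 0) =
            if x = w then φ x * φ w' else 0 := by
          intro x
          split_ifs
          · simp
          · simp
        simp [this]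
      rw [h7, h7]
      ring

theorem quad (G : SimpleGraph V) [DecidableRel G.Adj] (κ : ℝ) (o : V) (F : Finset (Sym2 V))
    (hF : ∀ e ∈ F, ¬ e.IsDiag) (φ : V → ℝ) :
    φ ⬝ᵥ (MF G κ o F).mulVec φ = ∑ x, dt G κ o x * φ x ^ 2 - 2 * ∑ e ∈ F, pr φ e := by
  rw [← sum_edges F hF φ]
  unfold dotProduct Matrix.mulVec MF dotProduct
  rw [← Finset.sum_sub_distrib]
  refine Finset.sum_congr rfl fun x _ => ?_
  simp only [Matrix.of_apply]
  rw [Finset.mul_sum]
  have h1 : ∀ y, φ x * (((if x = y then dt G κ o x else 0) - (if s(x, y) ∈ F then 1 else 0)) * φ y) =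
      (if x = y then dt G κ o x * φ x * φ y else 0) - (if s(x, y) ∈ F then φ x * φ y else 0) := by
    intro y
    split_ifs <;> ring
  simp only [h1, Finset.sum_sub_distrib, Finset.sum_ite_eq, Finset.mem_univ, if_true]
  ring

/-- the weight with all the edges of `F` -/
noncomputable def bs (G : SimpleGraph V) [DecidableRel G.Adj] (κ : ℝ) (o : V) (φ : V → ℝ) : ℝ :=
  Real.exp (-(∑ x, dt G κ o x * φ x ^ 2) / 2)

theorem exp_eq (G : SimpleGraph V) [DecidableRel G.Adj] (κ : ℝ) (o : V) (F : Finset (Sym2 V))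
    (hF : ∀ e ∈ F, ¬ e.IsDiag) (φ : V → ℝ) :
    Real.exp (-(φ ⬝ᵥ (MF G κ o F).mulVec φ) / 2) = bs G κ o φ * ∏ e ∈ F, Real.exp (pr φ e) := by
  rw [quad G κ o F hF, bs, ← Real.exp_sum, ← Real.exp_add]
  congr 1
  ring

instance instGam (ι : Type) [Fintype ι] : IsProbabilityMeasure (gam ι) := by
  unfold gam; infer_instance

/-- second moment of a linear form -/
theorem second_moment (b : V → ℝ) :
    ∫⁻ g, ENNReal.ofReal ((∑ u, b u * g u) ^ 2) ∂(gam V) = ENNReal.ofReal (∑ u, b u ^ 2) := by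
  have hmem : ∀ u : V, MemLp (fun g : V → ℝ => b u * g u) 2 (gam V) := by
    intro u
    have h1 : MemLp (fun x : ℝ => x) 2 (gaussianReal 0 1) := memLp_id_gaussianReal 2
    have h2 : MemLp (fun g : V → ℝ => g u) 2 (gam V) :=
      h1.comp_measurePreserving (measurePreserving_eval (fun _ : V => gaussianReal 0 1) u)
    exact h2.const_mul (b u)
  have hint : ∀ u : V, Integrable (fun g : V → ℝ => b u * g u) (gam V) := fun u =>
    (hmem u).integrable (by norm_num)
  have hmean : ∀ u : V, ∫ g : V → ℝ, b u * g u ∂(gam V) = 0 := by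
    intro u
    rw [integral_const_mul]
    have : ∫ g : V → ℝ, g u ∂(gam V) = ∫ x, x ∂(gaussianReal 0 1) := by
      have h := (measurePreserving_eval (fun _ : V => gaussianReal 0 1) u).map_eq
      rw [← h, integral_map]
      · rfl
      · exact (measurable_pi_apply u).aemeasurable
      · exact aestronglyMeasurable_id
    rw [this, integral_id_gaussianReal, mul_zero]
  have hind : iIndepFun (fun (u : V) (g : V → ℝ) => b u * g u) (gam V) := by
    unfold gam
    exact iIndepFun_pi (X := fun (u : V) (x : ℝ) => b u * x) (fun u => by fun_prop)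
  have hsum : MemLp (fun g : V → ℝ => ∑ u, b u * g u) 2 (gam V) := memLp_finsetSum _ fun u _ => hmem u
  have hvar : Var[∑ u, (fun g : V → ℝ => b u * g u); gam V] = ∑ u, Var[fun g : V → ℝ => b u * g u; gam V] := by
    apply IndepFun.variance_sum
    · intro u _
      exact hmem u
    · intro u _ v _ huv
      exact hind.indepFun huv
  have hvaru : ∀ u : V, Var[fun g : V → ℝ => b u * g u; gam V] = b u ^ 2 := by
    intro u
    rw [variance_const_mul]
    have h := (measurePreserving_eval (fun _ : V => gaussianReal 0 1) u)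
    have h2 : Var[fun g : V → ℝ => g u; gam V] = Var[id; gaussianReal 0 1] := by
      rw [← h.map_eq, variance_map]
      · rfl
      · exact aemeasurable_id
      · exact (measurable_pi_apply u).aemeasurable
    rw [h2, variance_id_gaussianReal]
    simp
  have hfun : (∑ u, (fun g : V → ℝ => b u * g u)) = fun g : V → ℝ => ∑ u, b u * g u := by
    funext g; simp
  rw [hfun] at hvar
  have hEX : ∫ g : V → ℝ, ∑ u, b u * g u ∂(gam V) = 0 := by
    rw [integral_finsetSum _ fun u _ => hint u]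
    exact Finset.sum_eq_zero fun u _ => hmean u
  have h3 : ∫ g : V → ℝ, (∑ u, b u * g u) ^ 2 ∂(gam V) = ∑ u, b u ^ 2 := by
    have h4 := variance_of_integral_eq_zero (hsum.aestronglyMeasurable.aemeasurable) hEX
    rw [← h4, hvar]
    exact Finset.sum_congr rfl fun u _ => hvaru u
  rw [← h3, ofReal_integral_eq_lintegral_ofReal]
  · exact hsum.integrable_sq
  · exact Filter.Eventually.of_forall fun g => sq_nonneg _

/-- flipping signs preserves the volume -/
theorem flip_vol (σ : V → Bool) :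
    MeasurePreserving (fun (φ : V → ℝ) (x : V) => sg (σ x) * φ x) volume volume := by
  apply volume_preserving_pi (α' := fun _ : V => ℝ) (β' := fun _ : V => ℝ) (f := fun x (t : ℝ) => sg (σ x) * t)
  intro x
  unfold sg
  split_ifs
  · have : (fun t : ℝ => 1 * t) = id := by funext t; simp
    rw [this]
    exact MeasurePreserving.id (volume : Measure ℝ)
  · simpa using Measure.measurePreserving_neg (volume : Measure ℝ)

theorem sg_sq (b : Bool) : sg b ^ 2 = 1 := by
  unfold sg; split_ifs <;> norm_num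

theorem integral_flip (σ : V → Bool) (Φ : (V → ℝ) → ℝ) (hΦ : AEStronglyMeasurable Φ volume) :
    ∫ φ : V → ℝ, Φ (fun x => sg (σ x) * φ x) = ∫ φ : V → ℝ, Φ φ := by
  have h := flip_vol σ
  have h2 : ∫ φ : V → ℝ, Φ φ ∂(Measure.map (fun (φ : V → ℝ) (x : V) => sg (σ x) * φ x) volume) =
      ∫ φ : V → ℝ, Φ (fun x => sg (σ x) * φ x) := by
    rw [integral_map h.measurable.aemeasurable]
    rw [h.map_eq]; exact hΦ
  rw [← h2, h.map_eq]

theorem cont_pr (e : Sym2 V) : Continuous (fun φ : V → ℝ => pr φ e) := by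
  induction e with
  | _ x y => simp only [pr_mk]; fun_prop

theorem cont_bs (G : SimpleGraph V) [DecidableRel G.Adj] (κ : ℝ) (o : V) : Continuous (bs G κ o) := by
  unfold bs; fun_prop

/-- symmetrisation -/
theorem symm_int (G : SimpleGraph V) [DecidableRel G.Adj] (κ : ℝ) (o : V) (F : Finset (Sym2 V)) (j : ℕ)
    (hint : Integrable fun φ : V → ℝ => (φ o ^ 2) ^ j * (bs G κ o φ * ∏ e ∈ F, (Real.exp (pr φ e) - 1))) :
    Integrable (fun φ : V → ℝ => (φ o ^ 2) ^ j * (bs G κ o φ * tF F φ)) ∧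
    (2:ℝ) ^ Fintype.card V * ∫ φ : V → ℝ, (φ o ^ 2) ^ j * (bs G κ o φ * ∏ e ∈ F, (Real.exp (pr φ e) - 1)) =
      ∫ φ : V → ℝ, (φ o ^ 2) ^ j * (bs G κ o φ * tF F φ) := by
  set Φ : (V → ℝ) → ℝ := fun φ => (φ o ^ 2) ^ j * (bs G κ o φ * ∏ e ∈ F, (Real.exp (pr φ e) - 1)) with hΦ
  have h1 : ∀ σ : V → Bool, ∫ φ : V → ℝ, Φ (fun x => sg (σ x) * φ x) = ∫ φ : V → ℝ, Φ φ := fun σ =>
    integral_flip σ Φ hint.aestronglyMeasurable
  have h2 : ∀ σ : V → Bool, ∀ φ : V → ℝ, Φ (fun x => sg (σ x) * φ x) =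
      (φ o ^ 2) ^ j * (bs G κ o φ * ∏ e ∈ F, (Real.exp (pr (fun x => sg (σ x) * φ x) e) - 1)) := by
    intro σ φ
    rw [hΦ]
    simp only
    congr 2
    · rw [mul_pow, sg_sq, one_mul]
    · unfold bs
      simp only [mul_pow, sg_sq, one_mul]
  have h3 : ∀ σ : V → Bool, Integrable fun φ : V → ℝ => Φ (fun x => sg (σ x) * φ x) := by
    intro σ
    exact (flip_vol σ).integrable_comp_of_integrable hint
  have h5 : (fun φ : V → ℝ => (φ o ^ 2) ^ j * (bs G κ o φ * tF F φ)) =
      fun φ => ∑ σ : V → Bool, Φ (fun x => sg (σ x) * φ x) := by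
    funext φ
    simp only [h2]
    unfold tF
    rw [Finset.mul_sum, Finset.mul_sum]
  refine ⟨by rw [h5]; exact integrable_finsetSum _ fun σ _ => h3 σ, ?_⟩
  have h4 : ∫ φ : V → ℝ, (φ o ^ 2) ^ j * (bs G κ o φ * tF F φ) =
      ∑ σ : V → Bool, ∫ φ : V → ℝ, Φ (fun x => sg (σ x) * φ x) := by
    rw [← integral_finsetSum _ fun σ _ => h3 σ]
    rw [h5]
  rw [h4]
  simp only [h1]
  rw [Finset.sum_const, Finset.card_univ]
  simp [Fintype.card_bool]

open scoped MatrixOrder ComplexOrder in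
theorem sqrtfac (M : Matrix V V ℝ) (hM : M.PosDef) :
    ∃ B : Matrix V V ℝ, B * B.transpose = M⁻¹ := by
  have h1 : (M⁻¹).PosSemidef := hM.inv.posSemidef
  obtain ⟨B, hB⟩ := CStarAlgebra.nonneg_iff_eq_star_mul_self.mp h1.nonneg
  refine ⟨B.transpose, ?_⟩
  rw [hB]
  simp [Matrix.star_eq_conjTranspose]

theorem det_pos' (M : Matrix V V ℝ) (hM : M.PosDef) : 0 < M.det := hM.det_pos

theorem inv_oo_nonneg (M : Matrix V V ℝ) (hM : M.PosDef) (o : V) : 0 ≤ M⁻¹ o o := by
  obtain ⟨B, hB⟩ := sqrtfac M hM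
  rw [← hB, Matrix.mul_apply]
  exact Finset.sum_nonneg fun u _ => by rw [Matrix.transpose_apply]; exact mul_self_nonneg _

theorem gauss_lint (h3 : S_GCV) (M : Matrix V V ℝ) (hM : M.PosDef) (o : V) (j : ℕ) (hj : j ≤ 1) :
    ∫⁻ φ : V → ℝ, ENNReal.ofReal ((φ o ^ 2) ^ j * Real.exp (-(φ ⬝ᵥ M.mulVec φ) / 2)) =
      ENNReal.ofReal (√(2 * Real.pi) ^ Fintype.card V / √M.det * (M⁻¹ o o) ^ j) := by
  obtain ⟨B, hB⟩ := sqrtfac M hM
  have h := h3 V M B hM hB (fun φ => ENNReal.ofReal ((φ o ^ 2) ^ j)) (by fun_prop)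
  have e1 : ∫⁻ φ : V → ℝ, ENNReal.ofReal ((φ o ^ 2) ^ j * Real.exp (-(φ ⬝ᵥ M.mulVec φ) / 2)) =
      ∫⁻ φ : V → ℝ, ENNReal.ofReal ((φ o ^ 2) ^ j) * ENNReal.ofReal (Real.exp (-(φ ⬝ᵥ M.mulVec φ) / 2)) := by
    congr 1
    funext φ
    rw [ENNReal.ofReal_mul (by positivity)]
  rw [e1, h, ENNReal.ofReal_mul (by positivity)]
  congr 1
  interval_cases j
  · simp
  · simp only [pow_one]
    have h2 := second_moment (fun u => B o u)
    have e2 : (fun g : V → ℝ => ENNReal.ofReal ((B.mulVec g) o ^ 2)) =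
        fun g => ENNReal.ofReal ((∑ u, B o u * g u) ^ 2) := by
      funext g
      rfl
    rw [e2, h2, ← hB, Matrix.mul_apply]
    congr 1
    refine Finset.sum_congr rfl fun u _ => ?_
    rw [Matrix.transpose_apply, sq]

section Main
variable (G : SimpleGraph V) [DecidableRel G.Adj] (κ : ℝ) (o : V)

theorem notDiag (F : Finset (Sym2 V)) (hF : F ⊆ G.edgeFinset) : ∀ e ∈ F, ¬ e.IsDiag := by
  intro e he
  exact G.not_isDiag_of_mem_edgeSet (SimpleGraph.mem_edgeFinset.1 (hF he))

theorem int_exp (h3 : S_GCV) (hPD : ∀ F ⊆ G.edgeFinset, (MF G κ o F).PosDef) (F : Finset (Sym2 V))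
    (hF : F ⊆ G.edgeFinset) (j : ℕ) (hj : j ≤ 1) :
    Integrable (fun φ : V → ℝ => (φ o ^ 2) ^ j * (bs G κ o φ * ∏ e ∈ F, Real.exp (pr φ e))) ∧
    ∫ φ : V → ℝ, (φ o ^ 2) ^ j * (bs G κ o φ * ∏ e ∈ F, Real.exp (pr φ e)) =
      √(2 * Real.pi) ^ Fintype.card V / √(MF G κ o F).det * ((MF G κ o F)⁻¹ o o) ^ j := by
  have h := gauss_lint h3 _ (hPD F hF) o j hj
  simp only [exp_eq G κ o F (notDiag G F hF)] at h
  have hcont : Continuous (fun φ : V → ℝ => (φ o ^ 2) ^ j * (bs G κ o φ * ∏ e ∈ F, Real.exp (pr φ e))) := by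
    have h1 := cont_bs G κ o
    have h2 : Continuous (fun φ : V → ℝ => ∏ e ∈ F, Real.exp (pr φ e)) :=
      continuous_finsetProd _ fun e _ => Real.continuous_exp.comp (cont_pr e)
    have h3 : Continuous (fun φ : V → ℝ => (φ o ^ 2) ^ j) := by fun_prop
    exact h3.mul (h1.mul h2)
  have hnn : ∀ φ : V → ℝ, 0 ≤ (φ o ^ 2) ^ j * (bs G κ o φ * ∏ e ∈ F, Real.exp (pr φ e)) := by
    intro φ
    have h1 : 0 ≤ bs G κ o φ := (Real.exp_pos _).le
    have h2 : 0 ≤ ∏ e ∈ F, Real.exp (pr φ e) := Finset.prod_nonneg fun e _ => (Real.exp_pos _).le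
    positivity
  have hc : 0 ≤ √(2 * Real.pi) ^ Fintype.card V / √(MF G κ o F).det * ((MF G κ o F)⁻¹ o o) ^ j := by
    have := inv_oo_nonneg _ (hPD F hF) o
    positivity
  constructor
  · rw [← lintegral_ofReal_ne_top_iff_integrable hcont.aestronglyMeasurable
      (Filter.Eventually.of_forall hnn), h]
    exact ENNReal.ofReal_ne_top
  · rw [integral_eq_lintegral_of_nonneg_ae (Filter.Eventually.of_forall hnn) hcont.aestronglyMeasurable, h,
      ENNReal.toReal_ofReal hc]

theorem int_sub (h3 : S_GCV) (hPD : ∀ F ⊆ G.edgeFinset, (MF G κ o F).PosDef) (F : Finset (Sym2 V))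
    (hF : F ⊆ G.edgeFinset) (j : ℕ) (hj : j ≤ 1) :
    Integrable (fun φ : V → ℝ => (φ o ^ 2) ^ j * (bs G κ o φ * ∏ e ∈ F, (Real.exp (pr φ e) - 1))) := by
  have h1 : (fun φ : V → ℝ => (φ o ^ 2) ^ j * (bs G κ o φ * ∏ e ∈ F, (Real.exp (pr φ e) - 1))) =
      fun φ => ∑ t ∈ F.powerset, (∏ e ∈ F \ t, (-1 : ℝ)) *
        ((φ o ^ 2) ^ j * (bs G κ o φ * ∏ e ∈ t, Real.exp (pr φ e))) := by
    funext φ
    simp only [sub_eq_add_neg]
    rw [Finset.prod_add, Finset.mul_sum, Finset.mul_sum]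
    refine Finset.sum_congr rfl fun t _ => ?_
    ring
  rw [h1]
  apply integrable_finsetSum
  intro t ht
  exact ((int_exp G κ o h3 hPD t ((Finset.mem_powerset.1 ht).trans hF) j hj).1).const_mul _

theorem sum_int (h3 : S_GCV) (hPD : ∀ F ⊆ G.edgeFinset, (MF G κ o F).PosDef) (F : Finset (Sym2 V))
    (hF : F ⊆ G.edgeFinset) (j : ℕ) (hj : j ≤ 1) :
    ∑ F' ∈ F.powerset, ∫ φ : V → ℝ, (φ o ^ 2) ^ j * (bs G κ o φ * ∏ e ∈ F', (Real.exp (pr φ e) - 1)) =
      √(2 * Real.pi) ^ Fintype.card V / √(MF G κ o F).det * ((MF G κ o F)⁻¹ o o) ^ j := by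
  rw [← (int_exp G κ o h3 hPD F hF j hj).2, ← integral_finsetSum]
  · congr 1
    funext φ
    rw [← Finset.mul_sum, ← Finset.mul_sum, ← Finset.prod_one_add]
    congr 2
    refine Finset.prod_congr rfl fun e _ => ?_
    ring
  · intro F' hF'
    exact int_sub G κ o h3 hPD F' ((Finset.mem_powerset.1 hF').trans hF) j hj

/-- the explicit factor -/
noncomputable def Bm (a : V → V → ℝ) : Matrix V V ℝ :=
  Matrix.of fun x u => a x u + if u = o then 1 / √κ else 0

theorem Bm_mul (hgri : S_GRI) (a : V → V → ℝ) (ha : IsGreen G o a) (hκ : 0 < κ) :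
    Bm κ o a * (Bm κ o a).transpose = (MF G κ o G.edgeFinset)⁻¹ := by
  symm
  apply Matrix.inv_eq_right_inv
  obtain ⟨-, -, hg⟩ := hgri V G o a ha
  obtain ⟨ha1, ha2, -⟩ := ha
  have hs : (1 / √κ) * (1 / √κ) = 1 / κ := by
    rw [div_mul_div_comm, one_mul, Real.mul_self_sqrt hκ.le]
  have hBB : ∀ x y, (Bm κ o a * (Bm κ o a).transpose) x y = dotp (a x) (a y) + 1 / κ := by
    intro x y
    rw [Matrix.mul_apply]
    unfold Bm dotp
    simp only [Matrix.transpose_apply, Matrix.of_apply]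
    have h1 : ∀ u, (a x u + if u = o then 1 / √κ else 0) * (a y u + if u = o then 1 / √κ else 0) =
        a x u * a y u + (if u = o then a x u * (1 / √κ) + (1 / √κ) * a y u + (1 / √κ) * (1 / √κ) else 0) := by
      intro u
      split_ifs <;> ring
    simp only [h1, Finset.sum_add_distrib, Finset.sum_ite_eq', Finset.mem_univ, if_true, ha2, hs]
    ring
  ext x y
  rw [Matrix.mul_apply]
  simp only [hBB, MF, Matrix.of_apply, sub_mul, Finset.sum_sub_distrib, ite_mul, zero_mul, one_mul,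
    Finset.sum_ite_eq, Finset.mem_univ, if_true, SimpleGraph.mem_edgeFinset, SimpleGraph.mem_edgeSet]
  have h2 : ∑ z, (if G.Adj x z then dotp (a z) (a y) + 1 / κ else 0) =
      ∑ z ∈ G.neighborFinset x, dotp (a z) (a y) + (G.degree x : ℝ) * (1 / κ) := by
    rw [← Finset.sum_filter]
    have h3 : Finset.univ.filter (fun z => G.Adj x z) = G.neighborFinset x := by
      ext z; simp
    rw [h3, Finset.sum_add_distrib, Finset.sum_const, SimpleGraph.card_neighborFinset_eq_degree, nsmul_eq_mul]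
  rw [h2]
  have h4 := hg x y
  unfold dt
  rw [Matrix.one_apply]
  by_cases hxo : x = o
  · subst hxo
    have h5 : dotp (a x) (a y) = 0 := by
      unfold dotp
      exact Finset.sum_eq_zero fun u _ => by rw [ha1 u, zero_mul]
    simp only [if_true] at h4 ⊢
    rw [h5] at h4 ⊢
    have h6 : κ * (1 / κ) = 1 := by field_simp
    linear_combination h4 + h6
  · simp only [hxo, if_false] at h4 ⊢
    linear_combination h4

theorem bs_abs (φ : V → ℝ) : bs G κ o (fun x => |φ x|) = bs G κ o φ := by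
  unfold bs
  simp only [sq_abs]

end Main

open Classical in
theorem main (h1 : S_GRI) (h2 : S_TPOS ∧ S_TABS) (h3 : S_GCV) (h4 : S_ORTH) (h5 : S_MOB) (h6 : S_NEU)
    (h7 : S_COVCONN) (h8 : S_CS) : S_COVLE := by
  intro V _ _ G _ κ o a hG hκ ha
  obtain ⟨hPD, hp0, hpsum, -, -⟩ := h6 V G κ o hG hκ
  obtain ⟨hpos, habs⟩ := h2
  set E := G.edgeFinset with hE
  set Z : ℝ := √(2 * Real.pi) ^ Fintype.card V with hZ
  have hZ0 : 0 < Z := by positivity
  set n := Fintype.card V with hn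
  set I : ℕ → Finset (Sym2 V) → ℝ := fun j F =>
    ∫ φ : V → ℝ, (φ o ^ 2) ^ j * (bs G κ o φ * ∏ e ∈ F, (Real.exp (pr φ e) - 1)) with hI
  have hsym : ∀ j ≤ 1, ∀ F ⊆ E, Integrable (fun φ : V → ℝ => (φ o ^ 2) ^ j * (bs G κ o φ * tF F φ)) ∧
      (2:ℝ) ^ n * I j F = ∫ φ : V → ℝ, (φ o ^ 2) ^ j * (bs G κ o φ * tF F φ) := by
    intro j hj F hF
    exact symm_int G κ o F j (int_sub G κ o h3 hPD F hF j hj)
  have hI0 : ∀ j ≤ 1, ∀ F ⊆ E, 0 ≤ I j F := by
    intro j hj F hF
    have h := (hsym j hj F hF).2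
    have h' : 0 ≤ (2:ℝ) ^ n * I j F := by
      rw [h]
      apply integral_nonneg
      intro φ
      have a1 : 0 ≤ tF F φ := hpos V F φ
      have a2 : 0 ≤ bs G κ o φ := (Real.exp_pos _).le
      show 0 ≤ (φ o ^ 2) ^ j * (bs G κ o φ * tF F φ)
      positivity
    exact nonneg_of_mul_nonneg_right h' (by positivity)
  have hmob := h5 (Sym2 V) E Conn (pF G κ o) (fun F => Z⁻¹ * I 0 F) (fun F => κ * Z⁻¹ * I 1 F)
    (by
      intro F F' hFF' hF σ hσ
      exact hF σ fun x y hxy => hσ x y (hFF' hxy))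
    (fun F _ => hp0 F)
    (fun F hF => mul_nonneg (by positivity) (hI0 0 (by norm_num) F hF))
    (by
      intro F hF
      rw [hpsum F hF, ← Finset.mul_sum, ← Finset.mul_sum]
      have e0 : ∑ F' ∈ F.powerset, I 0 F' = _ := sum_int G κ o h3 hPD F hF 0 (by norm_num)
      have e1 : ∑ F' ∈ F.powerset, I 1 F' = _ := sum_int G κ o h3 hPD F hF 1 le_rfl
      rw [e0, e1]
      ring)
  set M := MF G κ o E with hM
  have hdet : 0 < M.det := det_pos' M (hPD E (Finset.Subset.refl _))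
  have hl : ∑ F ∈ E.powerset, Z⁻¹ * I 0 F = 1 / √M.det := by
    have e0 : ∑ F' ∈ E.powerset, I 0 F' = _ := sum_int G κ o h3 hPD E (Finset.Subset.refl _) 0 (by norm_num)
    rw [← Finset.mul_sum, e0, pow_zero, mul_one, ← hM]
    have hsq : 0 < √M.det := Real.sqrt_pos.2 hdet
    rw [← hn, ← hZ]
    field_simp
  rw [hl] at hmob
  -- the sum over connected sets
  set CF := E.powerset.filter (fun F => Conn F) with hCF
  have hCFsub : ∀ F ∈ CF, F ⊆ E := fun F hF => Finset.mem_powerset.1 (Finset.mem_filter.1 hF).1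
  have hw1 : ∑ F ∈ CF, κ * Z⁻¹ * I 1 F = κ * Z⁻¹ * ((2:ℝ) ^ n)⁻¹ *
      ∫ φ : V → ℝ, (φ o ^ 2) * (bs G κ o φ * ∑ F ∈ CF, tF F φ) := by
    have e1 : ∫ φ : V → ℝ, (φ o ^ 2) * (bs G κ o φ * ∑ F ∈ CF, tF F φ) =
        ∑ F ∈ CF, ∫ φ : V → ℝ, (φ o ^ 2) ^ 1 * (bs G κ o φ * tF F φ) := by
      rw [← integral_finsetSum _ fun F hF => (hsym 1 le_rfl F (hCFsub F hF)).1]
      congr 1
      funext φ
      rw [Finset.mul_sum, Finset.mul_sum]
      simp
    rw [e1, ← Finset.mul_sum, mul_assoc (κ * Z⁻¹)]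
    congr 1
    rw [Finset.mul_sum]
    refine Finset.sum_congr rfl fun F hF => ?_
    rw [← (hsym 1 le_rfl F (hCFsub F hF)).2]
    field_simp
  have hint : Integrable (fun φ : V → ℝ => (φ o ^ 2) * (bs G κ o φ * ∑ F ∈ CF, tF F φ)) := by
    have e1 : (fun φ : V → ℝ => (φ o ^ 2) * (bs G κ o φ * ∑ F ∈ CF, tF F φ)) =
        fun φ => ∑ F ∈ CF, (φ o ^ 2) ^ 1 * (bs G κ o φ * tF F φ) := by
      funext φ
      rw [Finset.mul_sum, Finset.mul_sum]
      simp
    rw [e1]
    exact integrable_finsetSum _ fun F hF => (hsym 1 le_rfl F (hCFsub F hF)).1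
  have hnn : ∀ φ : V → ℝ, 0 ≤ (φ o ^ 2) * (bs G κ o φ * ∑ F ∈ CF, tF F φ) := by
    intro φ
    have a1 : 0 ≤ ∑ F ∈ CF, tF F φ := Finset.sum_nonneg fun F _ => hpos V F φ
    have a2 : 0 ≤ bs G κ o φ := (Real.exp_pos _).le
    positivity
  have hbound : ∀ φ : V → ℝ, (φ o ^ 2) * (bs G κ o φ * ∑ F ∈ CF, tF F φ) ≤
      2 * ((|φ o|) ^ 2 * Real.exp (-((fun x => |φ x|) ⬝ᵥ M.mulVec (fun x => |φ x|)) / 2)) := by
    intro φ
    rw [exp_eq G κ o E (notDiag G E (Finset.Subset.refl _)), bs_abs, sq_abs, ← Real.exp_sum]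
    have a1 : ∑ F ∈ CF, tF F φ ≤ 2 * Real.exp (∑ e ∈ E, pr (fun x => |φ x|) e) := by
      have := h8 V E (fun x => |φ x|) (fun x => abs_nonneg _)
      simp only [habs V] at this
      exact this
    have a2 : 0 ≤ bs G κ o φ := (Real.exp_pos _).le
    calc (φ o ^ 2) * (bs G κ o φ * ∑ F ∈ CF, tF F φ) ≤
        (φ o ^ 2) * (bs G κ o φ * (2 * Real.exp (∑ e ∈ E, pr (fun x => |φ x|) e))) := by gcongr
      _ = _ := by ring
  set S : Set (V → ℝ) := {g : V → ℝ | ∀ x, 0 < g o / √κ + dotp (a x) g} with hS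
  have hfin : ENNReal.ofReal (∫ φ : V → ℝ, (φ o ^ 2) * (bs G κ o φ * ∑ F ∈ CF, tF F φ)) ≤
      2 ^ n * (ENNReal.ofReal (Z / √M.det) * ∫⁻ g in S, ENNReal.ofReal (2 * (g o ^ 2 / κ)) ∂(gam V)) := by
    rw [ofReal_integral_eq_lintegral_ofReal hint (Filter.Eventually.of_forall hnn)]
    set f : (V → ℝ) → ℝ≥0∞ := fun φ => ENNReal.ofReal (2 * ((φ o) ^ 2 *
      Real.exp (-(φ ⬝ᵥ M.mulVec φ) / 2))) with hf
    have hfm : Measurable f := by
      rw [hf]
      apply ENNReal.measurable_ofReal.comp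
      apply Continuous.measurable
      unfold dotProduct Matrix.mulVec dotProduct
      fun_prop
    have e1 : ∫⁻ φ : V → ℝ, ENNReal.ofReal ((φ o ^ 2) * (bs G κ o φ * ∑ F ∈ CF, tF F φ)) ≤
        ∫⁻ φ : V → ℝ, f (fun x => |φ x|) := by
      apply lintegral_mono
      intro φ
      exact ENNReal.ofReal_le_ofReal (hbound φ)
    refine e1.trans ?_
    rw [h4 V f hfm]
    gcongr
    set f' : (V → ℝ) → ℝ≥0∞ := Set.indicator {φ : V → ℝ | ∀ x, 0 < φ x}
      (fun φ => ENNReal.ofReal (2 * (φ o) ^ 2)) with hf'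
    have hmS : MeasurableSet {φ : V → ℝ | ∀ x, 0 < φ x} := by
      have : {φ : V → ℝ | ∀ x, 0 < φ x} = ⋂ x, {φ : V → ℝ | 0 < φ x} := by
        ext φ; simp
      rw [this]
      exact MeasurableSet.iInter fun x => measurableSet_lt measurable_const (measurable_pi_apply x)
    have hf'm : Measurable f' := by
      apply Measurable.indicator _ hmS
      fun_prop
    have e2 : ∫⁻ φ in {φ : V → ℝ | ∀ x, 0 < φ x}, f φ =
        ∫⁻ φ : V → ℝ, f' φ * ENNReal.ofReal (Real.exp (-(φ ⬝ᵥ M.mulVec φ) / 2)) := by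
      rw [← lintegral_indicator hmS]
      congr 1
      funext φ
      by_cases hφ : φ ∈ {φ : V → ℝ | ∀ x, 0 < φ x}
      · rw [hf', Set.indicator_of_mem hφ, Set.indicator_of_mem hφ, ← ENNReal.ofReal_mul (by positivity), hf]
        simp only
        congr 1
        ring
      · rw [hf', Set.indicator_of_notMem hφ, Set.indicator_of_notMem hφ, zero_mul]
    rw [e2, h3 V M (Bm κ o a) (hPD E (Finset.Subset.refl _)) (Bm_mul G κ o h1 a ha hκ) f' hf'm]
    refine mul_le_mul' le_rfl ?_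
    have hBg : ∀ (g : V → ℝ) (x : V), ((Bm κ o a).mulVec g) x = g o / √κ + dotp (a x) g := by
      intro g x
      unfold Matrix.mulVec dotProduct Bm dotp
      simp only [Matrix.of_apply, add_mul, Finset.sum_add_distrib, ite_mul, zero_mul, Finset.sum_ite_eq',
        Finset.mem_univ, if_true]
      ring
    have hSm : MeasurableSet S := by
      have : S = ⋂ x, {g : V → ℝ | 0 < g o / √κ + dotp (a x) g} := by
        ext g; simp [hS]
      rw [this]
      refine MeasurableSet.iInter fun x => measurableSet_lt measurable_const ?_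
      unfold dotp
      fun_prop
    rw [← lintegral_indicator hSm]
    apply lintegral_mono
    intro g
    by_cases hg : g ∈ S
    · have hg' : (Bm κ o a).mulVec g ∈ {φ : V → ℝ | ∀ x, 0 < φ x} := by
        intro x
        rw [hBg]
        exact hg x
      rw [Set.indicator_of_mem hg, hf']
      simp only
      rw [Set.indicator_of_mem hg', hBg]
      have hd : dotp (a o) g = 0 := by
        unfold dotp
        exact Finset.sum_eq_zero fun u _ => by rw [ha.1 u, zero_mul]
      rw [hd, add_zero, div_pow, Real.sq_sqrt hκ.le]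
    · have hg' : (Bm κ o a).mulVec g ∉ {φ : V → ℝ | ∀ x, 0 < φ x} := by
        intro h
        apply hg
        intro x
        have := h x
        rwa [hBg] at this
      rw [Set.indicator_of_notMem hg, hf']
      simp only
      rw [Set.indicator_of_notMem hg']
  -- conclusion
  have hcov := h7 V G κ o hG hκ
  have hc0 : 0 < 1 / √M.det := by positivity
  have step1 : ENNReal.ofReal (cov G κ o) * ENNReal.ofReal (1 / √M.det) ≤
      ENNReal.ofReal (∑ F ∈ CF, κ * Z⁻¹ * I 1 F) := by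
    rw [← ENNReal.ofReal_mul' hc0.le]
    apply ENNReal.ofReal_le_ofReal
    refine le_trans (mul_le_mul_of_nonneg_right hcov hc0.le) ?_
    exact hmob
  rw [hw1, ENNReal.ofReal_mul (by positivity)] at step1
  have step2 := step1.trans (mul_le_mul' le_rfl hfin)
  have hn2 : (2:ℝ≥0∞) ^ n = ENNReal.ofReal ((2:ℝ) ^ n) := by
    rw [ENNReal.ofReal_pow (by norm_num)]
    norm_num
  have e3 : ∫⁻ g in S, ENNReal.ofReal (2 * (g o ^ 2 / κ)) ∂(gam V) =
      ENNReal.ofReal (2 / κ) * ∫⁻ g in S, ENNReal.ofReal (g o ^ 2) ∂(gam V) := by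
    rw [← lintegral_const_mul _ (by fun_prop)]
    congr 1
    funext g
    rw [← ENNReal.ofReal_mul (by positivity)]
    congr 1
    ring
  rw [e3, hn2] at step2
  set J := ∫⁻ g in S, ENNReal.ofReal (g o ^ 2) ∂(gam V) with hJ
  have e4 : ENNReal.ofReal (κ * Z⁻¹ * ((2:ℝ) ^ n)⁻¹) * (ENNReal.ofReal ((2:ℝ) ^ n) *
      (ENNReal.ofReal (Z / √M.det) * (ENNReal.ofReal (2 / κ) * J))) =
      (2 * J) * ENNReal.ofReal (1 / √M.det) := by
    have e5 : (2:ℝ≥0∞) = ENNReal.ofReal 2 := by norm_num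
    rw [e5, ← mul_assoc, ← mul_assoc, ← mul_assoc, ← ENNReal.ofReal_mul (by positivity),
      ← ENNReal.ofReal_mul (by positivity), ← ENNReal.ofReal_mul (by positivity), mul_assoc (ENNReal.ofReal 2),
      mul_comm J, ← mul_assoc, ← ENNReal.ofReal_mul (by positivity)]
    congr 2
    field_simp
  rw [e4] at step2
  exact (ENNReal.mul_le_mul_iff_left (by simpa using hc0) ENNReal.ofReal_ne_top).1 step2

end Pool.Agent.W823.CT.Covle
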