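import Mathlib

/-! Definitions for MP_6504f0_pr: cover times of random walk on dynamical percolation. -/

open MeasureTheory ProbabilityTheory
open scoped ENNReal BigOperators

namespace Pool.Agent.W823.CT

/-! ### simple random walk and the walk on dynamical percolation -/

section Graph
variable {V : Type} [Fintype V] [DecidableEq V]

/-- indicator that the set of visited vertices is not everything -/
noncomputable def nc (A : Finset V) : ℝ := if A = Finset.univ then 0 else 1

/-- transition operator of the chain (position of simple random walk, set of visited vertices) -/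
noncomputable def srwStep (G : SimpleGraph V) [DecidableRel G.Adj]
    (f : V → Finset V → ℝ) : V → Finset V → ℝ :=
  fun x A => (∑ y ∈ G.neighborFinset x, f y (insert y A)) / (G.degree x : ℝ)

/-- worst case expected cover time of (discrete time) simple random walk:
`E_x[σ] = ∑_k P_x(σ > k)` -/
noncomputable def Tsrw (G : SimpleGraph V) [DecidableRel G.Adj] : ℝ≥0∞ :=
  ⨆ x : V, ∑' k : ℕ, ENNReal.ofReal ((srwStep G)^[k] (fun _ A => nc A) x {x})

/-- generator of the Markov process (walk, environment, set of visited vertices) -/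
noncomputable def genFun (G : SimpleGraph V) [DecidableRel G.Adj] (μ p : ℝ)
    (f : V × (G.edgeSet → Bool) × Finset V → ℝ) : V × (G.edgeSet → Bool) × Finset V → ℝ :=
  fun s =>
    μ * ∑ e : G.edgeSet,
      (p * f (s.1, Function.update s.2.1 e true, s.2.2)
        + (1 - p) * f (s.1, Function.update s.2.1 e false, s.2.2) - f s)
    + ∑ y : V, if h : G.Adj s.1 y then
        (if s.2.1 ⟨s(s.1, y), h⟩ = true then f (y, s.2.1, insert y s.2.2) - f s else 0) else 0

/-- the generator as a bounded operator -/
noncomputable def gen (G : SimpleGraph V) [DecidableRel G.Adj] (μ p : ℝ) :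
    (V × (G.edgeSet → Bool) × Finset V → ℝ) →L[ℝ] (V × (G.edgeSet → Bool) × Finset V → ℝ) :=
  LinearMap.toContinuousLinearMap
    { toFun := genFun G μ p
      map_add' := by
        intro f g
        funext s
        simp only [genFun, Pi.add_apply]
        have h1 : ∀ e : G.edgeSet,
            (p * (f (s.1, Function.update s.2.1 e true, s.2.2) + g (s.1, Function.update s.2.1 e true, s.2.2))
        + (1 - p) * (f (s.1, Function.update s.2.1 e false, s.2.2) + g (s.1, Function.update s.2.1 e false, s.2.2))
         - (f s + g s)) =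
            (p * f (s.1, Function.update s.2.1 e true, s.2.2)
        + (1 - p) * f (s.1, Function.update s.2.1 e false, s.2.2) - f s) +
            (p * g (s.1, Function.update s.2.1 e true, s.2.2)
        + (1 - p) * g (s.1, Function.update s.2.1 e false, s.2.2) - g s) := by
          intro e; ring
        have h2 : ∀ y : V, (if h : G.Adj s.1 y then
            (if s.2.1 ⟨s(s.1, y), h⟩ = true then f (y, s.2.1, insert y s.2.2) + g (y, s.2.1, insert y s.2.2)
              - (f s + g s) else 0) else (0 : ℝ)) =
            (if h : G.Adj s.1 y then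
            (if s.2.1 ⟨s(s.1, y), h⟩ = true then f (y, s.2.1, insert y s.2.2) - f s else 0) else (0 : ℝ)) +
            (if h : G.Adj s.1 y then
            (if s.2.1 ⟨s(s.1, y), h⟩ = true then g (y, s.2.1, insert y s.2.2) - g s else 0) else (0 : ℝ)) := by
          intro y
          split_ifs <;> ring
        simp only [h1, h2, Finset.sum_add_distrib]
        ring
      map_smul' := by
        intro c f
        funext s
        simp only [genFun, Pi.smul_apply, smul_eq_mul, RingHom.id_apply]
        have h1 : ∀ e : G.edgeSet,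
            (p * (c * f (s.1, Function.update s.2.1 e true, s.2.2))
        + (1 - p) * (c * f (s.1, Function.update s.2.1 e false, s.2.2)) - c * f s) =
            c * (p * f (s.1, Function.update s.2.1 e true, s.2.2)
        + (1 - p) * f (s.1, Function.update s.2.1 e false, s.2.2) - f s) := by
          intro e; ring
        have h2 : ∀ y : V, (if h : G.Adj s.1 y then
            (if s.2.1 ⟨s(s.1, y), h⟩ = true then c * f (y, s.2.1, insert y s.2.2) - c * f s else 0) else (0 : ℝ)) =
            c * (if h : G.Adj s.1 y then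
            (if s.2.1 ⟨s(s.1, y), h⟩ = true then f (y, s.2.1, insert y s.2.2) - f s else 0) else (0 : ℝ)) := by
          intro y
          split_ifs <;> ring
        simp only [h1, h2, ← Finset.mul_sum]
        ring }

/-- worst case expected cover time of random walk on dynamical percolation:
`E[σ] = ∫_0^∞ P(σ > t) dt`, where `P(σ > t)` is given by the semigroup `exp (t L)` -/
noncomputable def Tdyn (G : SimpleGraph V) [DecidableRel G.Adj] (μ p : ℝ) : ℝ≥0∞ :=
  ⨆ v : V, ⨆ η : G.edgeSet → Bool, ∫⁻ t in Set.Ioi (0 : ℝ),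
    ENNReal.ofReal ((NormedSpace.exp (t • gen G μ p)) (fun s => nc s.2.2) (v, η, {v}))

/-- energy form of the graph -/
noncomputable def En (G : SimpleGraph V) [DecidableRel G.Adj] (f g : V → ℝ) : ℝ :=
  (∑ x, ∑ y, if G.Adj x y then (f x - f y) * (g x - g y) else 0) / 2

end Graph

/-! ### finite reversible chains on `V × Ω` (blocks indexed by `V`) -/

structure BC (V Ω : Type) [Fintype V] [Fintype Ω] where
  ν : Ω → ℝ
  K : V × Ω → V × Ω → ℝ
  ν_pos : ∀ ω, 0 < ν ω
  ν_sum : ∑ ω, ν ω = 1
  K_nonneg : ∀ s s', 0 ≤ K s s'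
  K_sum : ∀ s, ∑ s', K s s' = 1
  K_symm : ∀ s s', ν s.2 * K s s' = ν s'.2 * K s' s

namespace BC
variable {V Ω : Type} [Fintype V] [Fintype Ω]

/-- transition operator -/
noncomputable def P (C : BC V Ω) (f : V × Ω → ℝ) : V × Ω → ℝ := fun s => ∑ s', C.K s s' * f s'

noncomputable def ip (C : BC V Ω) (f g : V × Ω → ℝ) : ℝ := ∑ s, C.ν s.2 * f s * g s

noncomputable def sq (C : BC V Ω) (g : V × Ω → ℝ) (x : V) : ℝ := ∑ ω, C.ν ω * g (x, ω) ^ 2

noncomputable def nr (C : BC V Ω) (g : V × Ω → ℝ) (x : V) : ℝ := √(C.sq g x)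

/-- Dirichlet form -/
noncomputable def Dir (C : BC V Ω) (g : V × Ω → ℝ) : ℝ := C.ip g g - C.ip g (C.P g)

/-- average over the block `x` -/
noncomputable def blk (C : BC V Ω) (f : V × Ω → ℝ) (x : V) : ℝ := ∑ ω, C.ν ω * f (x, ω)

/-- transition operator of the chain together with the local times of the blocks
(the local time counts the visits strictly before the present time) -/
noncomputable def lstep [DecidableEq V] (C : BC V Ω) (f : V × Ω → (V → ℕ) → ℝ) :
    V × Ω → (V → ℕ) → ℝ :=
  fun s l => ∑ s', C.K s s' * f s' (l + Pi.single s.1 1)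

/-- transition operator of the chain together with the set of visited blocks -/
noncomputable def cstep [DecidableEq V] (C : BC V Ω) (f : V × Ω → Finset V → ℝ) :
    V × Ω → Finset V → ℝ :=
  fun s A => ∑ s', C.K s s' * f s' (insert s'.1 A)

end BC

/-! ### labelled trees (majorizing measures) -/

/-- `(V, d)` has a labelled tree of cost at most `S` -/
def HasTree {V : Type} (d : V → V → ℝ) (S : ℝ) : Prop :=
  ∃ (m : ℕ) (lab : ℕ → V → ℕ) (D : ℕ → ℝ), (∀ k x, 1 ≤ lab k x) ∧ (∀ k, 0 < D k) ∧
    (∀ k x y, (∀ j < k, lab j x = lab j y) → d x y ≤ D k) ∧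
    (∀ x y, (∀ j < m, lab j x = lab j y) → x = y) ∧
    ∀ x, ∑ k ∈ Finset.range m, D k * √(∑ j ∈ Finset.range (k + 1), (Real.log (lab j x) + 1)) ≤ S

/-! ### Gaussian vectors -/

noncomputable def dotp {ι : Type} [Fintype ι] (a g : ι → ℝ) : ℝ := ∑ i, a i * g i

noncomputable def nrm {ι : Type} [Fintype ι] (a : ι → ℝ) : ℝ := √(∑ i, a i ^ 2)

/-- standard Gaussian measure -/
noncomputable def gam (ι : Type) [Fintype ι] : Measure (ι → ℝ) :=
  Measure.pi (fun _ : ι => gaussianReal 0 1)

/-- maximum of the linear forms `a t`, `t ∈ T` (0 if `T` is empty) -/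
noncomputable def mx {ι τ : Type} [Fintype ι] (T : Finset τ) (a : τ → ι → ℝ) (g : ι → ℝ) : ℝ :=
  if h : T.Nonempty then T.sup' h (fun t => dotp (a t) g) else 0

/-- expected maximum of the Gaussian vector `⟨a t, g⟩`, `t ∈ T` -/
noncomputable def EM {ι τ : Type} [Fintype ι] (T : Finset τ) (a : τ → ι → ℝ) : ℝ :=
  ∫ g, mx T a g ∂(gam ι)

/-! ### Green function, Ising sums, walks with killing -/

section Graph2
variable {V : Type} [Fintype V] [DecidableEq V]

/-- `a` is a Gram representation of the Green function of `G` killed at `o` -/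
def IsGreen (G : SimpleGraph V) [DecidableRel G.Adj] (o : V) (a : V → V → ℝ) : Prop :=
  (∀ u, a o u = 0) ∧ (∀ x, a x o = 0) ∧
    ∀ (f : V → ℝ) (x : V), En G f (fun z => dotp (a x) (a z)) = f x - f o

/-- `φ x * φ y` for `e = s(x, y)` -/
def pr (φ : V → ℝ) (e : Sym2 V) : ℝ :=
  Sym2.lift ⟨fun x y => φ x * φ y, fun _ _ => mul_comm _ _⟩ e

/-- signs -/
def sg (b : Bool) : ℝ := if b = true then 1 else -1

noncomputable def tF (F : Finset (Sym2 V)) (φ : V → ℝ) : ℝ :=
  ∑ σ : V → Bool, ∏ e ∈ F, (Real.exp (pr (fun x => sg (σ x) * φ x) e) - 1)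

/-- the edge set `F` connects all of `V` -/
def Conn (F : Finset (Sym2 V)) : Prop :=
  ∀ σ : V → Bool, (∀ x y, s(x, y) ∈ F → σ x = σ y) → ∀ x y, σ x = σ y

/-- total rate, with killing at rate `κ` at `o` -/
noncomputable def dt (G : SimpleGraph V) [DecidableRel G.Adj] (κ : ℝ) (o x : V) : ℝ :=
  (G.degree x : ℝ) + if x = o then κ else 0

/-- walk killed at `o`, acting on functions of (present vertex, list of the vertices visited so far) -/
noncomputable def wstep (G : SimpleGraph V) [DecidableRel G.Adj] (κ : ℝ) (o : V)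
    (f : V → List V → ℝ) : V → List V → ℝ :=
  fun x h => (∑ y ∈ G.neighborFinset x, f y (y :: h)) / dt G κ o x

/-- edges used by a history -/
def hed : List V → Finset (Sym2 V)
  | y :: x :: h => insert s(y, x) (hed (x :: h))
  | _ => ∅

/-- probability that the walk from `o`, killed at rate `κ` at `o`, uses exactly the edges `F` -/
noncomputable def pF (G : SimpleGraph V) [DecidableRel G.Adj] (κ : ℝ) (o : V) (F : Finset (Sym2 V)) : ℝ :=
  open Classical in
  ∑' k : ℕ, κ / dt G κ o o * ((wstep G κ o)^[k] (fun x h => if x = o ∧ hed h = F then 1 else 0) o [o])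

/-- probability that the walk from `o`, killed at rate `κ` at `o`, visits everything -/
noncomputable def cov (G : SimpleGraph V) [DecidableRel G.Adj] (κ : ℝ) (o : V) : ℝ :=
  open Classical in
  ∑' k : ℕ, κ / dt G κ o o * ((wstep G κ o)^[k] (fun x h => if x = o ∧ (∀ v, v ∈ h) then 1 else 0) o [o])

/-- the matrix `D + κ 1_o - A_F` -/
noncomputable def MF (G : SimpleGraph V) [DecidableRel G.Adj] (κ : ℝ) (o : V) (F : Finset (Sym2 V)) :
    Matrix V V ℝ :=
  Matrix.of fun x y => (if x = y then dt G κ o x else 0) - (if s(x, y) ∈ F then 1 else 0)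

end Graph2

end Pool.Agent.W823.CT
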