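import Pool.Agent.W823.CT.Upper

/-! Final assembly. -/

open MeasureTheory ProbabilityTheory
open scoped ENNReal BigOperators

namespace Pool.Agent.W823.CT.Fin'

/-- the case of one vertex -/
theorem one_vertex (huni : S_UNIF) {V : Type} [Fintype V] [DecidableEq V] (G : SimpleGraph V)
    [DecidableRel G.Adj] (μ p : ℝ) (hμ : 0 < μ) (hp : 0 ≤ p) (hp1 : p ≤ 1) (hV : Fintype.card V = 1) :
    Tdyn G μ p = 0 := by
  unfold Tdyn
  rw [ENNReal.iSup_eq_zero]
  intro v
  rw [ENNReal.iSup_eq_zero]
  intro η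
  have hL : 0 < 2 * (μ * Fintype.card G.edgeSet + Fintype.card V) := by rw [hV]; positivity
  rw [huni _ (gen G μ p) _ hL (Up.gen_pos G μ p _ hμ hp hp1 hL le_rfl)
    (fun s => nc s.2.2) (fun i => by unfold nc; split_ifs <;> norm_num) (v, η, {v})]
  rw [ENNReal.tsum_eq_zero]
  intro k
  have hu : ({v} : Finset V) = Finset.univ := by
    have : Subsingleton V := Fintype.card_le_one_iff_subsingleton.1 hV.le
    ext x; simp [Subsingleton.elim x v]
  rw [hu, Up.iter_univ]
  simp

theorem main (hup : S_UPPER) (hpone : S_PONE) (hgr : S_GREEN) (hlow : S_LOWER) (hcard : S_CARD)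
    (huni : S_UNIF) : S_FINAL := by
  obtain ⟨C₀, hC₀, hup⟩ := hup
  obtain ⟨c, hc, hlow⟩ := hlow
  refine ⟨C₀ * (2 / c + 2), by positivity, ?_⟩
  intro V _ _ G _ μ p hG hμ hμ1 hp hp1
  by_cases hn : 2 ≤ Fintype.card V
  swap
  · have hV : Fintype.card V = 1 := by
      have : Nonempty V := hG.nonempty
      have := Fintype.card_pos (α := V)
      omega
    rw [one_vertex huni G μ p hμ hp.le hp1 hV]
    exact zero_le
  obtain ⟨o⟩ := hG.nonempty
  obtain ⟨a, ha⟩ := hgr V G o hG
  set n : ℝ := ((Fintype.card V : ℕ) : ℝ) with hn'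
  set M : ℝ := EM Finset.univ a with hM
  have hn2 : (2:ℝ) ≤ n := by rw [hn']; exact_mod_cast hn
  -- the bound for X
  have hm : n ≤ 2 * G.edgeFinset.card := by
    have h1 := hG.card_vert_le_card_edgeSet_add_one
    have h2 : Nat.card G.edgeSet = G.edgeFinset.card := by
      rw [Nat.card_eq_fintype_card, SimpleGraph.edgeFinset_card]
    have h3 : Nat.card V = Fintype.card V := Nat.card_eq_fintype_card
    rw [h2, h3] at h1
    have h4 : Fintype.card V ≤ 2 * G.edgeFinset.card := by omega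
    rw [hn']; exact_mod_cast h4
  have hX : ENNReal.ofReal (n * M ^ 2 + n) ≤ ENNReal.ofReal (2 / c + 2) * Tsrw G := by
    have h1 : ENNReal.ofReal (n * M ^ 2) ≤ ENNReal.ofReal (2 / c) * Tsrw G := by
      calc ENNReal.ofReal (n * M ^ 2) ≤ ENNReal.ofReal (2 / c * (c * G.edgeFinset.card * M ^ 2)) := by
            apply ENNReal.ofReal_le_ofReal
            have h1 : 2 / c * (c * G.edgeFinset.card * M ^ 2) = 2 * G.edgeFinset.card * M ^ 2 := by
              field_simp
            rw [h1]
            exact mul_le_mul_of_nonneg_right hm (sq_nonneg _)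
        _ = ENNReal.ofReal (2 / c) * ENNReal.ofReal (c * G.edgeFinset.card * M ^ 2) :=
            ENNReal.ofReal_mul (by positivity)
        _ ≤ _ := by
            gcongr
            exact hlow V G o a hG hn ha
    have h2 : ENNReal.ofReal n ≤ ENNReal.ofReal 2 * Tsrw G := by
      calc ENNReal.ofReal n ≤ ENNReal.ofReal (2 * ((Fintype.card V - 1 : ℕ) : ℝ)) := by
            apply ENNReal.ofReal_le_ofReal
            rw [Nat.cast_sub (by omega)]
            rw [← hn']
            push_cast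
            linarith
        _ = ENNReal.ofReal 2 * ((Fintype.card V - 1 : ℕ) : ℝ≥0∞) := by
            rw [ENNReal.ofReal_mul (by norm_num), ENNReal.ofReal_natCast]
        _ ≤ _ := by
            gcongr
            exact hcard V G hG
    calc ENNReal.ofReal (n * M ^ 2 + n) ≤ ENNReal.ofReal (n * M ^ 2) + ENNReal.ofReal n :=
          ENNReal.ofReal_add_le
      _ ≤ ENNReal.ofReal (2 / c) * Tsrw G + ENNReal.ofReal 2 * Tsrw G := add_le_add h1 h2
      _ = ENNReal.ofReal (2 / c + 2) * Tsrw G := by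
          rw [ENNReal.ofReal_add (by positivity) (by norm_num), add_mul]
  have hlt : ∀ q : ℝ, 0 < q → q < 1 → Tdyn G μ q ≤ ENNReal.ofReal (C₀ / μ * (n * M ^ 2 + n) / q) := by
    intro q hq hq1
    have h := hup V G o a μ q hG ha hn hμ hμ1 hq hq1
    have h2 : C₀ / (μ * q) * (n * M ^ 2 + n) = C₀ / μ * (n * M ^ 2 + n) / q := by
      field_simp
    rw [← h2]
    exact h
  have hX0 : 0 ≤ n * M ^ 2 + n := by positivity
  have hall : Tdyn G μ p ≤ ENNReal.ofReal (C₀ / μ * (n * M ^ 2 + n) / p) := by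
    rcases lt_or_eq_of_le hp1 with h | h
    · exact hlt p hp h
    · subst h
      rw [div_one]
      exact hpone V G μ _ hμ hμ1 (by positivity) hlt
  calc Tdyn G μ p ≤ ENNReal.ofReal (C₀ / μ * (n * M ^ 2 + n) / p) := hall
    _ = ENNReal.ofReal (C₀ / μ * p⁻¹) * ENNReal.ofReal (n * M ^ 2 + n) := by
        rw [← ENNReal.ofReal_mul (by positivity)]
        congr 1
        ring
    _ ≤ ENNReal.ofReal (C₀ / μ * p⁻¹) * (ENNReal.ofReal (2 / c + 2) * Tsrw G) := by gcongr
    _ = ENNReal.ofReal (C₀ * (2 / c + 2) / μ * p⁻¹) * Tsrw G := by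
        rw [← mul_assoc, ← ENNReal.ofReal_mul (by positivity)]
        congr 2
        ring

end Pool.Agent.W823.CT.Fin'
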