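import Pool.Agent.W823.CT.Stm

/-! Assembly of the upper bound. -/

open MeasureTheory ProbabilityTheory
open scoped ENNReal BigOperators

namespace Pool.Agent.W823.CT.Up

theorem hasTree_scale {V : Type} {d : V → V → ℝ} {S : ℝ} (h : HasTree d S) (s : ℝ) (hs : 0 < s) :
    HasTree (fun x y => s * d x y) (s * S) := by
  obtain ⟨m, lab, D, h1, h2, h3, h4, h5⟩ := h
  refine ⟨m, lab, fun k => s * D k, h1, fun k => mul_pos hs (h2 k), ?_, h4, ?_⟩
  · intro k x y hxy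
    exact mul_le_mul_of_nonneg_left (h3 k x y hxy) hs.le
  · intro x
    have : ∑ k ∈ Finset.range m, s * D k * √(∑ j ∈ Finset.range (k + 1), (Real.log (lab j x) + 1)) =
        s * ∑ k ∈ Finset.range m, D k * √(∑ j ∈ Finset.range (k + 1), (Real.log (lab j x) + 1)) := by
      rw [Finset.mul_sum]
      exact Finset.sum_congr rfl fun k _ => by ring
    rw [this]
    exact mul_le_mul_of_nonneg_left (h5 x) hs.le

/-- the uniformised generator is positive -/
theorem gen_pos {V : Type} [Fintype V] [DecidableEq V] (G : SimpleGraph V) [DecidableRel G.Adj]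
    (μ p Λ : ℝ) (hμ : 0 < μ) (hp : 0 ≤ p) (hp1 : p ≤ 1) (hΛ : 0 < Λ)
    (hL : 2 * (μ * Fintype.card G.edgeSet + Fintype.card V) ≤ Λ)
    (f : V × (G.edgeSet → Bool) × Finset V → ℝ) (hf : ∀ i, 0 ≤ f i)
    (s : V × (G.edgeSet → Bool) × Finset V) : 0 ≤ f s + Λ⁻¹ * gen G μ p f s := by
  have h1 : -(μ * Fintype.card G.edgeSet + Fintype.card V) * f s ≤ gen G μ p f s := by
    change _ ≤ genFun G μ p f s
    unfold genFun
    have a1 : ∑ e : G.edgeSet, (p * f (s.1, Function.update s.2.1 e true, s.2.2)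
        + (1 - p) * f (s.1, Function.update s.2.1 e false, s.2.2) - f s) ≥
        ∑ e : G.edgeSet, (-(f s)) := by
      apply Finset.sum_le_sum
      intro e _
      have := mul_nonneg hp (hf (s.1, Function.update s.2.1 e true, s.2.2))
      have := mul_nonneg (sub_nonneg.2 hp1) (hf (s.1, Function.update s.2.1 e false, s.2.2))
      linarith
    have a2 : ∑ y : V, (if h : G.Adj s.1 y then
        (if s.2.1 ⟨s(s.1, y), h⟩ = true then f (y, s.2.1, insert y s.2.2) - f s else 0) else (0:ℝ)) ≥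
        ∑ y : V, (-(f s)) := by
      apply Finset.sum_le_sum
      intro y _
      split_ifs
      · have := hf (y, s.2.1, insert y s.2.2)
        linarith
      · have := hf s; linarith
      · have := hf s; linarith
    rw [Finset.sum_const, Finset.card_univ, nsmul_eq_mul] at a1 a2
    have a3 := mul_le_mul_of_nonneg_left a1 hμ.le
    nlinarith [a3, a2]
  have h2 : 0 ≤ f s * (Λ - (μ * Fintype.card G.edgeSet + Fintype.card V)) := by
    apply mul_nonneg (hf s)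
    have : 0 ≤ μ * Fintype.card G.edgeSet + Fintype.card V := by positivity
    linarith
  have h3 : f s + Λ⁻¹ * gen G μ p f s = Λ⁻¹ * (f s * Λ + gen G μ p f s) := by
    field_simp
  rw [h3]
  apply mul_nonneg (inv_nonneg.2 hΛ.le)
  nlinarith [h1, h2]

/-- iterates of the uniformised generator vanish when everything is visited -/
theorem iter_univ {V : Type} [Fintype V] [DecidableEq V] (G : SimpleGraph V) [DecidableRel G.Adj]
    (μ p Λ : ℝ) (k : ℕ) : ∀ (x : V) (η : G.edgeSet → Bool),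
    ((fun (f : V × (G.edgeSet → Bool) × Finset V → ℝ) i => f i + Λ⁻¹ * gen G μ p f i)^[k]
      (fun s => nc s.2.2)) (x, η, Finset.univ) = 0 := by
  induction k with
  | zero => intro x η; simp [nc]
  | succ k ih =>
    intro x η
    rw [Function.iterate_succ_apply']
    set F := ((fun (f : V × (G.edgeSet → Bool) × Finset V → ℝ) i => f i + Λ⁻¹ * gen G μ p f i)^[k]
      (fun s => nc s.2.2)) with hF
    change F (x, η, Finset.univ) + Λ⁻¹ * genFun G μ p F (x, η, Finset.univ) = 0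
    unfold genFun
    simp [ih]

theorem cstep_eq {V : Type} [Fintype V] [DecidableEq V] (G : SimpleGraph V) [DecidableRel G.Adj]
    (μ p Λ : ℝ) (C : BC V (G.edgeSet → Bool))
    (hC : ∀ (f : V × (G.edgeSet → Bool) × Finset V → ℝ) (x : V) (η : G.edgeSet → Bool) (A : Finset V),
      x ∈ A → C.cstep (fun s A => f (s.1, s.2, A)) (x, η) A =
        f (x, η, A) + Λ⁻¹ * genFun G μ p f (x, η, A)) (k : ℕ) :
    ∀ (x : V) (η : G.edgeSet → Bool) (A : Finset V), x ∈ A →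
    ((fun (f : V × (G.edgeSet → Bool) × Finset V → ℝ) i => f i + Λ⁻¹ * gen G μ p f i)^[k]
      (fun s => nc s.2.2)) (x, η, A) = (C.cstep^[k] (fun _ A => nc A)) (x, η) A := by
  induction k with
  | zero => intro x η A _; rfl
  | succ k ih =>
    intro x η A hx
    rw [Function.iterate_succ_apply', Function.iterate_succ_apply']
    set F := ((fun (f : V × (G.edgeSet → Bool) × Finset V → ℝ) i => f i + Λ⁻¹ * gen G μ p f i)^[k]
      (fun s => nc s.2.2)) with hF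
    change F (x, η, A) + Λ⁻¹ * genFun G μ p F (x, η, A) = _
    rw [← hC F x η A hx]
    unfold BC.cstep
    refine Finset.sum_congr rfl fun s' _ => ?_
    congr 1
    exact ih s'.1 s'.2 _ (Finset.mem_insert_self _ _)

theorem log8_le (x : ℝ) (hx : 1 ≤ x) : Real.log (8 * x) ≤ 3 + Real.log x := by
  rw [Real.log_mul (by norm_num) (by positivity)]
  have : Real.log 8 ≤ 3 := by
    have h : Real.log 8 = 3 * Real.log 2 := by
      rw [show (8:ℝ) = 2^3 by norm_num, Real.log_pow]; norm_num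
    rw [h]
    have := Real.log_two_lt_d9
    linarith
  linarith

theorem pow_small (x : ℝ) (hx : 0 < x) (hx1 : x ≤ 1) (c : ℝ) (hc : 1 ≤ c) (s : ℕ)
    (hs : Real.log (8 * c) / x ≤ s) : c * (1 - x) ^ s ≤ 1 / 8 := by
  have h1 : (1 - x) ^ s ≤ Real.exp (-(x * s)) := by
    have : (1 - x) ≤ Real.exp (-x) := by
      have := Real.add_one_le_exp (-x)
      linarith
    calc (1 - x) ^ s ≤ (Real.exp (-x)) ^ s := pow_le_pow_left₀ (by linarith) this s
      _ = Real.exp (-(x * s)) := by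
        rw [← Real.exp_nat_mul]; congr 1; ring
  have h2 : Real.log (8 * c) ≤ x * s := by
    rw [div_le_iff₀ hx] at hs
    linarith
  have h3 : Real.exp (-(x * s)) ≤ 1 / (8 * c) := by
    rw [Real.exp_neg, one_div]
    apply inv_anti₀ (by positivity)
    calc 8 * c = Real.exp (Real.log (8 * c)) := (Real.exp_log (by positivity)).symm
      _ ≤ _ := Real.exp_le_exp.2 h2
  calc c * (1 - x) ^ s ≤ c * (1 / (8 * c)) := mul_le_mul_of_nonneg_left (h1.trans h3) (by linarith)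
    _ = 1 / 8 := by field_simp

theorem num_bound (n m M Λ μ p C₁ Sd t s₁ j T : ℝ) (hn2' : 2 ≤ n) (hm1 : 1 ≤ m) (hmn : m ≤ n ^ 2)
    (hM0 : 0 ≤ M) (hΛpos : 0 < Λ) (hΛn : n ≤ Λ) (hμ : 0 < μ) (hμ1 : μ ≤ 1) (hp : 0 < p) (hp1 : p ≤ 1)
    (hC₁ : 0 < C₁) (hSd2 : Sd ^ 2 = 3 * Λ / (μ * p) * (C₁ * M) ^ 2) (ht3 : t ≤ 2 + 36 * Sd ^ 2)
    (hT2 : T ≤ 16 * (2 * t + 1) * n + 1) (hs₁' : s₁ ≤ Real.log (8 * m) / (μ / Λ) + 1)
    (hj' : j ≤ Real.log (8 * n) / (3 / 4 * (μ / Λ)) + 1) :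
    Λ⁻¹ * (4 * (s₁ + j + T)) ≤ 4 * (91 + 3456 * C₁ ^ 2) / (μ * p) * (n * M ^ 2 + n) := by
  have hμp : 0 < μ * p := mul_pos hμ hp
  have hμp1 : μ * p ≤ 1 := by nlinarith
  have e1 : Real.log (8 * m) ≤ 4 * n := by
    have h1 := log8_le m hm1
    have h2 : Real.log m ≤ 2 * Real.log n := by
      rw [show 2 * Real.log n = Real.log (n ^ 2) by rw [Real.log_pow]; norm_num]
      exact Real.log_le_log (by linarith) hmn
    have h3 : Real.log n ≤ n - 1 := Real.log_le_sub_one_of_pos (by linarith)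
    linarith
  have e2 : Real.log (8 * n) ≤ 3 * n := by
    have h1 := log8_le n (by linarith)
    have h3 : Real.log n ≤ n - 1 := Real.log_le_sub_one_of_pos (by linarith)
    linarith
  have e3 : Λ⁻¹ * (Real.log (8 * m) / (μ / Λ)) = Real.log (8 * m) / μ := by
    field_simp
  have e4 : Λ⁻¹ * (Real.log (8 * n) / (3 / 4 * (μ / Λ))) = 4 / 3 * (Real.log (8 * n) / μ) := by
    field_simp
  have e5 : Λ⁻¹ * (16 * (2 * t + 1) * n) ≤ 80 * (Λ⁻¹ * n) + 3456 * C₁ ^ 2 * (n * M ^ 2) / (μ * p) := by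
    have h1 : 16 * (2 * t + 1) * n ≤ 80 * n + 1152 * Sd ^ 2 * n := by
      have := mul_le_mul_of_nonneg_right ht3 (show (0:ℝ) ≤ 32 * n by linarith)
      linarith
    calc Λ⁻¹ * (16 * (2 * t + 1) * n) ≤ Λ⁻¹ * (80 * n + 1152 * Sd ^ 2 * n) :=
          mul_le_mul_of_nonneg_left h1 (by positivity)
      _ = 80 * (Λ⁻¹ * n) + 3456 * C₁ ^ 2 * (n * M ^ 2) / (μ * p) := by
          rw [hSd2]; field_simp; ring
  have e6 : Λ⁻¹ * n ≤ 1 := by
    rw [inv_mul_le_iff₀ hΛpos]; linarith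
  have e7 : Λ⁻¹ ≤ 1 := inv_le_one_of_one_le₀ (by linarith)
  have e8 : (1:ℝ) ≤ 1 / (μ * p) := by rw [le_div_iff₀ hμp]; linarith
  have e9 : 1 / μ ≤ 1 / (μ * p) := by
    apply one_div_le_one_div_of_le hμp
    nlinarith
  have e10 : Real.log (8 * m) / μ ≤ 4 * n * (1 / (μ * p)) := by
    calc Real.log (8 * m) / μ = Real.log (8 * m) * (1 / μ) := by ring
      _ ≤ (4 * n) * (1 / (μ * p)) := mul_le_mul e1 e9 (by positivity) (by linarith)
  have e11 : Real.log (8 * n) / μ ≤ 3 * n * (1 / (μ * p)) := by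
    calc Real.log (8 * n) / μ = Real.log (8 * n) * (1 / μ) := by ring
      _ ≤ (3 * n) * (1 / (μ * p)) := mul_le_mul e2 e9 (by positivity) (by linarith)
  have e12 : (83:ℝ) ≤ 83 * n * (1 / (μ * p)) := by nlinarith
  have key : Λ⁻¹ * (s₁ + j + T) ≤ (91 + 3456 * C₁ ^ 2) / (μ * p) * (n * M ^ 2 + n) := by
    calc Λ⁻¹ * (s₁ + j + T) ≤ Λ⁻¹ * ((Real.log (8 * m) / (μ / Λ) + 1) +
          (Real.log (8 * n) / (3 / 4 * (μ / Λ)) + 1)
          + (16 * (2 * t + 1) * n + 1)) := mul_le_mul_of_nonneg_left (by linarith) (by positivity)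
      _ = Λ⁻¹ * (Real.log (8 * m) / (μ / Λ)) + Λ⁻¹ * (Real.log (8 * n) / (3 / 4 * (μ / Λ)))
          + Λ⁻¹ * (16 * (2 * t + 1) * n) + 3 * Λ⁻¹ := by ring
      _ ≤ 4 * n * (1 / (μ * p)) + 4 / 3 * (3 * n * (1 / (μ * p))) +
          (80 + 3456 * C₁ ^ 2 * (n * M ^ 2) / (μ * p)) + 3 := by
          rw [e3, e4]; linarith
      _ ≤ 4 * n * (1 / (μ * p)) + 4 / 3 * (3 * n * (1 / (μ * p))) +
          (3456 * C₁ ^ 2 * (n * M ^ 2) / (μ * p)) + 83 * n * (1 / (μ * p)) := by linarith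
      _ = (91 * n + 3456 * C₁ ^ 2 * (n * M ^ 2)) / (μ * p) := by ring
      _ ≤ (91 + 3456 * C₁ ^ 2) / (μ * p) * (n * M ^ 2 + n) := by
          rw [div_mul_eq_mul_div, div_le_div_iff_of_pos_right hμp]
          have h1 : 0 ≤ n * M ^ 2 := by positivity
          have h2 : 0 ≤ 3456 * C₁ ^ 2 * n := by positivity
          nlinarith
  calc Λ⁻¹ * (4 * (s₁ + j + T)) = 4 * (Λ⁻¹ * (s₁ + j + T)) := by ring
    _ ≤ 4 * ((91 + 3456 * C₁ ^ 2) / (μ * p) * (n * M ^ 2 + n)) := mul_le_mul_of_nonneg_left key (by norm_num)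
    _ = _ := by ring

theorem main (hE : S_EMB) (hcov : S_COVSTAT) (hwor : S_WORST) (hdyn : S_DYN) (huni : S_UNIF)
    (hmm : S_MM) (hgri : S_GRI) : S_UPPER := by
  obtain ⟨C₁, hC₁, hmm⟩ := hmm
  refine ⟨4 * (91 + 3456 * C₁ ^ 2), by positivity, ?_⟩
  intro V _ _ G _ o a μ p hG ha hn2 hμ hμ1 hp hp1
  classical
  have : Nonempty V := ⟨o⟩
  set n : ℝ := ((Fintype.card V : ℕ) : ℝ) with hn
  set m : ℝ := ((Fintype.card G.edgeSet : ℕ) : ℝ) with hm
  set M : ℝ := EM Finset.univ a with hM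
  have hM0 : 0 ≤ M := (hE V V Finset.univ a).2.1
  have hn2' : (2:ℝ) ≤ n := by rw [hn]; exact_mod_cast hn2
  obtain ⟨hg1, hg2, hg3⟩ := hgri V G o a ha
  -- number of edges
  have hm1 : 1 ≤ m := by
    have : Nonempty G.edgeSet := by
      have : Nontrivial V := Fintype.one_lt_card_iff_nontrivial.1 (by omega)
      obtain ⟨x, hx⟩ := exists_ne o
      obtain ⟨y, hy⟩ := hG.preconnected.exists_adj_of_nontrivial o
      exact ⟨⟨s(o, y), hy⟩⟩
    have : 0 < Fintype.card G.edgeSet := Fintype.card_pos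
    rw [hm]; exact_mod_cast this
  have hmn : m ≤ n ^ 2 := by
    have h := SimpleGraph.card_edgeFinset_le_card_choose_two (G := G)
    have h2 : (Fintype.card V).choose 2 ≤ (Fintype.card V) ^ 2 := by
      exact Nat.choose_le_pow _ _
    have h3 : Fintype.card G.edgeSet = G.edgeFinset.card := by
      rw [SimpleGraph.edgeFinset_card]
    rw [hm, hn, h3]
    exact_mod_cast h.trans h2
  -- the time scale
  set Λ : ℝ := 2 * (m + n) + ∑ x, ∑ y, (nrm (a x - a y) ^ 2)⁻¹ with hΛ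
  have hsum0 : 0 ≤ ∑ x, ∑ y, (nrm (a x - a y) ^ 2)⁻¹ := by positivity
  have hΛpos : 0 < Λ := by rw [hΛ]; linarith
  have hΛn : n ≤ Λ := by rw [hΛ]; linarith
  have hL : 2 * (μ * Fintype.card G.edgeSet + Fintype.card V) ≤ Λ := by
    have : μ * m ≤ 1 * m := mul_le_mul_of_nonneg_right hμ1 (by linarith)
    rw [← hm, ← hn, hΛ]
    nlinarith
  have hμp : 0 < μ * p := mul_pos hμ hp
  have hμp1 : μ * p ≤ 1 := by nlinarith
  obtain ⟨C, hCν, hCc, hpsd, hgap, hmix, hdir⟩ := hdyn V G μ p Λ hμ hμ1 hp hp1 hΛpos hL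
  have hnn : ∀ x y, x ≠ y → 0 < nrm (a x - a y) := by
    intro x y hxy
    unfold nrm
    apply Real.sqrt_pos.2
    have hne : a x - a y ≠ 0 := sub_ne_zero.2 fun h => hxy (hg2 h)
    obtain ⟨u, hu⟩ := Function.ne_iff.1 hne
    have hu' : 0 < (a x - a y) u ^ 2 := by
      have : (a x - a y) u ≠ 0 := hu
      positivity
    exact lt_of_lt_of_le hu' (Finset.single_le_sum (f := fun i => (a x - a y) i ^ 2)
      (fun i _ => sq_nonneg _) (Finset.mem_univ u))
  set s : ℝ := √(3 * Λ / (μ * p)) with hs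
  have hs2 : s ^ 2 = 3 * Λ / (μ * p) := Real.sq_sqrt (by positivity)
  have hspos : 0 < s := Real.sqrt_pos.2 (by positivity)
  set ρ : V → V → ℝ := fun x y => 3 * Λ / (μ * p) * nrm (a x - a y) ^ 2 with hρ
  have hρ1 : ∀ x y, x ≠ y → 1 ≤ ρ x y := by
    intro x y hxy
    have h1 : (nrm (a x - a y) ^ 2)⁻¹ ≤ Λ := by
      have : (nrm (a x - a y) ^ 2)⁻¹ ≤ ∑ x, ∑ y, (nrm (a x - a y) ^ 2)⁻¹ := by
        refine le_trans ?_ (Finset.single_le_sum (f := fun x => ∑ y, (nrm (a x - a y) ^ 2)⁻¹)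
          (fun i _ => by positivity) (Finset.mem_univ x))
        exact Finset.single_le_sum (f := fun y => (nrm (a x - a y) ^ 2)⁻¹)
          (fun i _ => by positivity) (Finset.mem_univ y)
      rw [hΛ]; linarith
    have h2 : 0 < nrm (a x - a y) ^ 2 := pow_pos (hnn x y hxy) 2
    have h3 : 1 ≤ Λ * nrm (a x - a y) ^ 2 := by
      have := mul_le_mul_of_nonneg_right h1 h2.le
      rwa [inv_mul_cancel₀ h2.ne'] at this
    have h4 : Λ ≤ 3 * Λ / (μ * p) := by
      rw [le_div_iff₀ hμp]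
      nlinarith
    calc (1:ℝ) ≤ Λ * nrm (a x - a y) ^ 2 := h3
      _ ≤ ρ x y := mul_le_mul_of_nonneg_right h4 h2.le
  have hρ0 : ∀ x y, 0 ≤ ρ x y := fun x y => by positivity
  have hρd : ∀ x y, ∀ g : V × (G.edgeSet → Bool) → ℝ, (C.nr g x - C.nr g y) ^ 2 ≤ ρ x y * C.Dir g := by
    intro x y g
    have h1 := hg1 (C.nr g) x y
    have h2 := hdir g
    have h3 : En G (C.nr g) (C.nr g) ≤ 3 * Λ / (μ * p) * C.Dir g := by
      have h4 : En G (C.nr g) (C.nr g) = 3 * Λ / (μ * p) * (μ * p / (3 * Λ) * En G (C.nr g) (C.nr g)) := by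
        field_simp
      rw [h4]
      exact mul_le_mul_of_nonneg_left h2 (by positivity)
    calc (C.nr g x - C.nr g y) ^ 2 ≤ nrm (a x - a y) ^ 2 * En G (C.nr g) (C.nr g) := h1
      _ ≤ nrm (a x - a y) ^ 2 * (3 * Λ / (μ * p) * C.Dir g) := mul_le_mul_of_nonneg_left h3 (by positivity)
      _ = ρ x y * C.Dir g := by rw [hρ]; ring
  have htree : HasTree (fun x y => √(ρ x y)) (s * (C₁ * M)) := by
    have h1 := hasTree_scale (hmm V V a hg2) s hspos
    have h2 : (fun x y => √(ρ x y)) = fun x y => s * nrm (a x - a y) := by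
      funext x y
      rw [hρ]
      simp only
      rw [Real.sqrt_mul (by positivity), Real.sqrt_sq (by unfold nrm; positivity)]
    rw [h2]
    exact h1
  set Sd : ℝ := s * (C₁ * M) with hSd
  have hSd0 : 0 ≤ Sd := by positivity
  set t : ℝ := max 2 (36 * Sd ^ 2) with ht
  have ht2 : 2 ≤ t := le_max_left _ _
  have ht3 : t ≤ 2 + 36 * Sd ^ 2 := max_le (by nlinarith [sq_nonneg Sd]) (by linarith)
  have ht6 : 6 * Sd ≤ √t := by
    apply Real.le_sqrt_of_sq_le
    calc (6 * Sd) ^ 2 = 36 * Sd ^ 2 := by ring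
      _ ≤ t := le_max_right _ _
  set T : ℕ := ⌈16 * (2 * t + 1) * n⌉₊ with hT
  have hT1 : 16 * (2 * t + 1) * n ≤ (T : ℝ) := Nat.le_ceil _
  have hT2 : (T : ℝ) ≤ 16 * (2 * t + 1) * n + 1 := (Nat.ceil_lt_add_one (by positivity)).le
  have hcs := hcov V (G.edgeSet → Bool) C ρ Sd t T hρ1 hρ0 hρd htree ht2 ht6 hT1
  set γ : ℝ := μ / Λ with hγ
  have hγ0 : 0 < γ := by positivity
  have hγ1 : γ ≤ 1 := by
    rw [hγ, div_le_one hΛpos]; linarith
  set s₁ : ℕ := ⌈Real.log (8 * m) / γ⌉₊ with hs₁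
  set j : ℕ := ⌈Real.log (8 * n) / (3 / 4 * γ)⌉₊ with hj
  have hlm : 0 ≤ Real.log (8 * m) := Real.log_nonneg (by linarith)
  have hln : 0 ≤ Real.log (8 * n) := Real.log_nonneg (by linarith)
  have hs₁' : (s₁ : ℝ) ≤ Real.log (8 * m) / γ + 1 := (Nat.ceil_lt_add_one (by positivity)).le
  have hj' : (j : ℝ) ≤ Real.log (8 * n) / (3 / 4 * γ) + 1 := (Nat.ceil_lt_add_one (by positivity)).le
  have hw := hwor V (G.edgeSet → Bool) C γ m T s₁ j hγ0.le hγ1 (by linarith) hpsd hgap hmix hcs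
    (pow_small γ hγ0 hγ1 m hm1 s₁ (Nat.le_ceil _))
    (by
      have := pow_small (3 / 4 * γ) (by positivity) (by linarith) n (by linarith) j (Nat.le_ceil _)
      rw [mul_comm] at this
      exact this)
  have hTpos : 1 ≤ s₁ + j + T := by
    have : 0 < T := Nat.ceil_pos.2 (by positivity)
    omega
  -- real number estimate
  have hnum : Λ⁻¹ * (4 * (s₁ + j + T)) ≤
      4 * (91 + 3456 * C₁ ^ 2) / (μ * p) * (n * M ^ 2 + n) :=
    num_bound n m M Λ μ p C₁ Sd t s₁ j T hn2' hm1 hmn hM0 hΛpos hΛn hμ hμ1 hp hp1.le hC₁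
      (by rw [hSd, mul_pow, hs2]) ht3 hT2 hs₁' hj'
  unfold Tdyn
  refine iSup_le fun v => iSup_le fun η => ?_
  rw [huni _ (gen G μ p) Λ hΛpos (gen_pos G μ p Λ hμ hp.le hp1.le hΛpos hL)
    (fun s => nc s.2.2) (fun i => by unfold nc; split_ifs <;> norm_num) (v, η, {v})]
  have e1 : ∀ k : ℕ, ENNReal.ofReal (Λ⁻¹ * ((fun (f : V × (G.edgeSet → Bool) × Finset V → ℝ) i =>
      f i + Λ⁻¹ * gen G μ p f i)^[k] (fun s => nc s.2.2)) (v, η, {v})) =
      ENNReal.ofReal Λ⁻¹ * ENNReal.ofReal ((C.cstep^[k] (fun _ A => nc A)) (v, η) {v}) := by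
    intro k
    rw [cstep_eq G μ p Λ C hCc k v η {v} (Finset.mem_singleton_self v),
      ENNReal.ofReal_mul (by positivity)]
  rw [tsum_congr e1, ENNReal.tsum_mul_left]
  calc ENNReal.ofReal Λ⁻¹ * ∑' k : ℕ, ENNReal.ofReal ((C.cstep^[k] (fun _ A => nc A)) (v, η) {v})
      ≤ ENNReal.ofReal Λ⁻¹ * ENNReal.ofReal (4 * (s₁ + j + T)) := by
        gcongr
        exact hw (v, η) {v} (Finset.mem_singleton_self v) hTpos
    _ = ENNReal.ofReal (Λ⁻¹ * (4 * (s₁ + j + T))) := (ENNReal.ofReal_mul (by positivity)).symm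
    _ ≤ _ := ENNReal.ofReal_le_ofReal hnum

end Pool.Agent.W823.CT.Up
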